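import Mathlib

set_option autoImplicit false

/-!
Evasiveness of sparse monotone graph properties (MP_257582_lc): definitions for the
topological part (order complexes of posets, decision trees, graphs and permutations).
-/

namespace Pool.Agent.H98R2.Ev

open Finset

universe u

section Poset

variable {X : Type u} [DecidableEq X] [PartialOrder X]

/-- `(-1)^{#{y ∈ τ : y < x}}` -/
noncomputable def sg (x : X) (τ : Finset X) : ℤ := by
  classical exact (-1) ^ (τ.filter (fun y => y < x)).card

/-- simplicial boundary on functions on finite subsets of `X` -/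
noncomputable def bd (F : Type) [CommRing F] [Fintype X] (c : Finset X → F) : Finset X → F :=
  fun τ => ∑ x ∈ univ \ τ, ((sg x τ : ℤ) : F) * c (insert x τ)

/-- `σ` is a chain of `Q` (the empty chain included) -/
def Ch (Q σ : Finset X) : Prop := σ ⊆ Q ∧ IsChain (· ≤ ·) (σ : Set X)

/-- `c` is supported on chains of `Q` -/
def Supp {F : Type} [CommRing F] (Q : Finset X) (c : Finset X → F) : Prop :=
  ∀ σ, c σ ≠ 0 → Ch Q σ

/-- the augmented order complex of `Q` is exact over `F` -/
def Acyc (F : Type) [CommRing F] [Fintype X] (Q : Finset X) : Prop :=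
  ∀ c : Finset X → F, Supp Q c → bd F c = 0 → ∃ b : Finset X → F, Supp Q b ∧ bd F b = c

open Classical in
/-- the set of fixed points of `g` in `Q` -/
noncomputable def fixIn (Q : Finset X) (g : X → X) : Finset X := Q.filter (fun x => g x = x)

end Poset

section Trees

variable {E : Type u} [DecidableEq E]

/-- `NE A D`: there is a decision tree over the variables of `A` that decides the family `D`
(restricted to subsets of `A`) and that on no input queries all variables of `A`. -/
inductive NE : Finset E → (Finset E → Prop) → Prop
  | const (A : Finset E) (D : Finset E → Prop) (hA : A.Nonempty)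
      (h : (∀ S, S ⊆ A → D S) ∨ (∀ S, S ⊆ A → ¬ D S)) : NE A D
  | node (A : Finset E) (D : Finset E → Prop) (x : E) (hx : x ∈ A) (h0 : NE (A.erase x) D)
      (h1 : NE (A.erase x) (fun S => D (insert x S))) : NE A D

open Classical in
/-- non-empty members of `D` inside `A` -/
noncomputable def faces [Fintype E] (A : Finset E) (D : Finset E → Prop) : Finset (Finset E) :=
  univ.filter (fun S => S ⊆ A ∧ S.Nonempty ∧ D S)

/-- the order automorphism of `Finset E` induced by a permutation -/
def act (π : Equiv.Perm E) : Finset E ≃o Finset E where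
  toEquiv := Equiv.finsetCongr π
  map_rel_iff' := by
    intro S T
    simp only [Equiv.finsetCongr_apply, Finset.map_subset_map]

end Trees

section Graphs

variable (V : Type) [DecidableEq V]

/-- the potential edges of a graph on `V` -/
abbrev EV : Type := {e : Sym2 V // ¬ e.IsDiag}

variable {V}

/-- the graph with edge set `S` -/
def toG (S : Finset (EV V)) : SimpleGraph V :=
  SimpleGraph.fromEdgeSet {e : Sym2 V | ∃ h : ¬ e.IsDiag, (⟨e, h⟩ : EV V) ∈ S}

/-- the permutation of the edges induced by a permutation of the vertices -/
def ep (π : Equiv.Perm V) : Equiv.Perm (EV V) where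
  toFun e := ⟨Sym2.map π e.1, by
    intro h
    apply e.2
    revert h
    refine Sym2.ind (fun a b => ?_) e.1
    simp [Sym2.map_mk]⟩
  invFun e := ⟨Sym2.map π.symm e.1, by
    intro h
    apply e.2
    revert h
    refine Sym2.ind (fun a b => ?_) e.1
    simp [Sym2.map_mk]⟩
  left_inv e := by
    apply Subtype.ext
    simp [Sym2.map_map]
  right_inv e := by
    apply Subtype.ext
    simp [Sym2.map_map]

end Graphs

section Blocks

variable (k p r : ℕ)

/-- vertex set: `k` blocks of size `p` and one block of size `r` -/
abbrev VV : Type := (ZMod k × ZMod p) ⊕ ZMod r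

variable {k p r}

/-- translation of the `i`-th block of size `p` -/
def tr (i : ZMod k) : Equiv.Perm (VV k p r) :=
  Equiv.sumCongr (Equiv.prodShear (Equiv.refl _)
    (fun j => if j = i then Equiv.addRight (1 : ZMod p) else Equiv.refl _)) (Equiv.refl _)

/-- `(i, u) ↦ (i + 1, g u)` on the `p`-blocks, `x ↦ x + 1` on the `r`-block -/
def cyc (g : (ZMod p)ˣ) : Equiv.Perm (VV k p r) :=
  Equiv.sumCongr (Equiv.prodCongr (Equiv.addRight (1 : ZMod k)) (Units.mulLeft g))
    (Equiv.addRight (1 : ZMod r))

/-- `x ↦ w x` on the `r`-block -/
def mulr (w : (ZMod r)ˣ) : Equiv.Perm (VV k p r) :=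
  Equiv.sumCongr (Equiv.refl _) (Units.mulLeft w)

end Blocks

end Pool.Agent.H98R2.Ev
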