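import Mathlib
import Pool.Agent.H23.L.Ev.Defs

set_option autoImplicit false

/-! Task E1: boundary operator, cone lemma, Mayer-Vietoris (order complexes by hand). -/

namespace Pool.Agent.H98R2.Ev

open Finset

universe u

section T1
variable {X : Type u} [DecidableEq X] [PartialOrder X] [Fintype X] {F : Type} [CommRing F]

omit [Fintype X] in
theorem sg_insert_lt {x y : X} {τ : Finset X} (hx : x ∉ τ) (h : x < y) :
    sg y (insert x τ) = - sg y τ := by
  classical
  unfold sg
  have h1 : (insert x τ).filter (fun z => z < y) = insert x (τ.filter (fun z => z < y)) := by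
    rw [Finset.filter_insert, if_pos h]
  have h2 : x ∉ τ.filter (fun z => z < y) := fun hh => hx (Finset.mem_filter.1 hh).1
  rw [h1, Finset.card_insert_of_notMem h2, pow_succ]
  ring

omit [Fintype X] in
theorem sg_insert_not_lt {x y : X} {τ : Finset X} (h : ¬ x < y) :
    sg y (insert x τ) = sg y τ := by
  classical
  unfold sg
  have h1 : (insert x τ).filter (fun z => z < y) = τ.filter (fun z => z < y) := by
    rw [Finset.filter_insert, if_neg h]
  rw [h1]

omit [DecidableEq X] [Fintype X] in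
theorem sg_mul_self (x : X) (τ : Finset X) : sg x τ * sg x τ = 1 := by
  classical
  unfold sg
  rw [← mul_pow]
  simp

omit [DecidableEq X] [Fintype X] in
theorem sgF_mul_self (x : X) (τ : Finset X) : ((sg x τ : ℤ) : F) * ((sg x τ : ℤ) : F) = 1 := by
  rw [← Int.cast_mul, sg_mul_self, Int.cast_one]

omit [Fintype X] in
theorem sg_swap {x y : X} {τ : Finset X} (hx : x ∉ τ) (hy : y ∉ τ) (hxy : x ≠ y)
    (hc : x ≤ y ∨ y ≤ x) :
    sg x τ * sg y (insert x τ) = - (sg y τ * sg x (insert y τ)) := by
  rcases hc with h | h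
  · have h1 : x < y := lt_of_le_of_ne h hxy
    rw [sg_insert_lt hx h1, sg_insert_not_lt (not_lt_of_gt h1)]
    ring
  · have h1 : y < x := lt_of_le_of_ne h (Ne.symm hxy)
    rw [sg_insert_lt hy h1, sg_insert_not_lt (not_lt_of_gt h1)]
    ring

omit [DecidableEq X] [Fintype X] in
theorem Ch.mono {Q σ τ : Finset X} (h : Ch Q σ) (hs : τ ⊆ σ) : Ch Q τ :=
  ⟨hs.trans h.1, h.2.mono (by exact_mod_cast hs)⟩

theorem Supp.bd {Q : Finset X} {c : Finset X → F} (h : Supp Q c) : Supp Q (bd F c) := by
  intro τ hτ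
  obtain ⟨x, _, hx⟩ := Finset.exists_ne_zero_of_sum_ne_zero hτ
  have h1 : c (insert x τ) ≠ 0 := right_ne_zero_of_mul hx
  exact (h _ h1).mono (Finset.subset_insert x τ)

theorem bd_bd {Q : Finset X} {c : Finset X → F} (h : Supp Q c) : bd F (bd F c) = 0 := by
  classical
  funext τ
  simp only [Pool.Agent.H98R2.Ev.bd, Pi.zero_apply]
  simp_rw [Finset.mul_sum]
  rw [Finset.sum_sigma']
  refine Finset.sum_involution (fun a _ => ⟨a.2, a.1⟩) ?_ ?_ ?_ ?_
  · rintro ⟨x, y⟩ ha
    simp only [Finset.mem_sigma, Finset.mem_sdiff, Finset.mem_univ, true_and,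
      Finset.mem_insert, not_or] at ha
    obtain ⟨hx, hyx, hy⟩ := ha
    simp only
    rw [Finset.insert_comm y x τ]
    by_cases hc : c (insert x (insert y τ)) = 0
    · rw [hc]; simp
    · have hch := (h _ hc).2
      have hcomp : x ≤ y ∨ y ≤ x := by
        have hx' : x ∈ ((insert x (insert y τ) : Finset X) : Set X) := by simp
        have hy' : y ∈ ((insert x (insert y τ) : Finset X) : Set X) := by simp
        exact hch hx' hy' (Ne.symm hyx)
      have hs := sg_swap hx hy (Ne.symm hyx) hcomp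
      have hs' : ((sg x τ : ℤ) : F) * ((sg y (insert x τ) : ℤ) : F)
          = - (((sg y τ : ℤ) : F) * ((sg x (insert y τ) : ℤ) : F)) := by
        rw [← Int.cast_mul, hs, Int.cast_neg, Int.cast_mul]
      rw [← mul_assoc, hs', ← mul_assoc]
      ring
  · rintro ⟨x, y⟩ ha _ heq
    simp only [Finset.mem_sigma, Finset.mem_sdiff, Finset.mem_univ, true_and,
      Finset.mem_insert, not_or] at ha
    have := congrArg Sigma.fst heq
    exact ha.2.1 this
  · rintro ⟨x, y⟩ ha
    simp only [Finset.mem_sigma, Finset.mem_sdiff, Finset.mem_univ, true_and,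
      Finset.mem_insert, not_or] at ha ⊢
    exact ⟨ha.2.2, Ne.symm ha.2.1, ha.1⟩
  · rintro ⟨x, y⟩ _
    rfl

theorem bd_add (a b : Finset X → F) : bd F (a + b) = bd F a + bd F b := by
  funext τ
  simp only [Pool.Agent.H98R2.Ev.bd, Pi.add_apply]
  rw [← Finset.sum_add_distrib]
  exact Finset.sum_congr rfl fun x _ => by ring

theorem bd_smul (t : F) (a : Finset X → F) : bd F (t • a) = t • bd F a := by
  funext τ
  simp only [Pool.Agent.H98R2.Ev.bd, Pi.smul_apply, smul_eq_mul]
  rw [Finset.mul_sum]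
  exact Finset.sum_congr rfl fun x _ => by ring

theorem bd_neg (a : Finset X → F) : bd F (-a) = - bd F a := by
  have := bd_smul (F := F) (-1) a
  simpa using this

theorem acyc_cone (Q : Finset X) (a : X) (ha : a ∈ Q) (h : ∀ x ∈ Q, x ≤ a ∨ a ≤ x) :
    Acyc F Q := by
  classical
  intro c hc hcyc
  refine ⟨fun τ => if a ∈ τ then ((sg a (τ.erase a) : ℤ) : F) * c (τ.erase a) else 0, ?_, ?_⟩
  · intro τ hτ
    by_cases haτ : a ∈ τ
    · replace hτ : ((sg a (τ.erase a) : ℤ) : F) * c (τ.erase a) ≠ 0 := by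
        simpa only [if_pos haτ] using hτ
      have h1 := hc _ (right_ne_zero_of_mul hτ)
      refine ⟨?_, ?_⟩
      · intro x hx
        by_cases hxa : x = a
        · rw [hxa]; exact ha
        · exact h1.1 (Finset.mem_erase.2 ⟨hxa, hx⟩)
      · intro x hx y hy hxy
        have hx' : x ∈ τ := hx
        have hy' : y ∈ τ := hy
        by_cases hxa : x = a
        · subst hxa
          have hyQ : y ∈ Q := h1.1 (Finset.mem_erase.2 ⟨Ne.symm hxy, hy'⟩)
          rcases h y hyQ with h2 | h2
          · exact Or.inr h2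
          · exact Or.inl h2
        · by_cases hya : y = a
          · subst hya
            have hxQ : x ∈ Q := h1.1 (Finset.mem_erase.2 ⟨hxy, hx'⟩)
            exact h x hxQ
          · exact h1.2 (Finset.mem_coe.2 (Finset.mem_erase.2 ⟨hxa, hx'⟩))
              (Finset.mem_coe.2 (Finset.mem_erase.2 ⟨hya, hy'⟩)) hxy
    · exfalso
      apply hτ
      simp only [if_neg haτ]
  · funext τ
    simp only [Pool.Agent.H98R2.Ev.bd]
    by_cases haτ : a ∈ τ
    · -- a in τ
      set ρ := τ.erase a with hρ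
      have haρ : a ∉ ρ := by simp [hρ]
      have hτρ : insert a ρ = τ := Finset.insert_erase haτ
      have h0 : bd F c ρ = 0 := by rw [hcyc]; rfl
      have hset : univ \ ρ = insert a (univ \ τ) := by
        ext x
        simp only [Finset.mem_sdiff, Finset.mem_univ, true_and, Finset.mem_insert, ← hτρ, not_or]
        constructor
        · intro hx
          by_cases hxa : x = a
          · exact Or.inl hxa
          · exact Or.inr ⟨hxa, hx⟩
        · rintro (hx | hx)
          · rw [hx]; exact haρ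
          · exact hx.2
      have hna : a ∉ univ \ τ := by simp [haτ]
      simp only [Pool.Agent.H98R2.Ev.bd] at h0
      rw [hset, Finset.sum_insert hna, hτρ] at h0
      have key : ∀ x ∈ univ \ τ,
          ((sg x τ : ℤ) : F) * (if a ∈ insert x τ then
            ((sg a ((insert x τ).erase a) : ℤ) : F) * c ((insert x τ).erase a) else 0)
          = - ((sg a ρ : ℤ) : F) * (((sg x ρ : ℤ) : F) * c (insert x ρ)) := by
        intro x hx
        have hxτ : x ∉ τ := by simpa using hx
        have hxa : x ≠ a := fun hh => hxτ (hh ▸ haτ)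
        have hxρ : x ∉ ρ := fun hh => hxτ (Finset.mem_of_mem_erase hh)
        rw [if_pos (Finset.mem_insert_of_mem haτ)]
        have he : (insert x τ).erase a = insert x ρ := by
          rw [Finset.erase_insert_of_ne (Ne.symm hxa).symm]
        rw [he]
        by_cases hc0 : c (insert x ρ) = 0
        · rw [hc0]; simp
        · have hxQ : x ∈ Q := (hc _ hc0).1 (Finset.mem_insert_self x ρ)
          have hs := sg_swap haρ hxρ (Ne.symm hxa) (by
            rcases h x hxQ with h2 | h2
            · exact Or.inr h2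
            · exact Or.inl h2)
          -- sg a ρ * sg x (insert a ρ) = - (sg x ρ * sg a (insert x ρ))
          have e1 : sg x (insert a ρ) * sg a (insert x ρ) = - (sg a ρ * sg x ρ) := by
            have h3 := sg_mul_self a ρ
            have h4 := sg_mul_self x ρ
            calc sg x (insert a ρ) * sg a (insert x ρ)
                = (sg a ρ * sg a ρ) * sg x (insert a ρ) * sg a (insert x ρ) := by rw [h3]; ring
              _ = sg a ρ * (sg a ρ * sg x (insert a ρ)) * sg a (insert x ρ) := by ring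
              _ = sg a ρ * (- (sg x ρ * sg a (insert x ρ))) * sg a (insert x ρ) := by rw [hs]
              _ = - (sg a ρ * sg x ρ) * (sg a (insert x ρ) * sg a (insert x ρ)) := by ring
              _ = - (sg a ρ * sg x ρ) := by rw [sg_mul_self]; ring
          rw [hτρ] at e1
          have e2 : ((sg x τ : ℤ) : F) * ((sg a (insert x ρ) : ℤ) : F)
              = - (((sg a ρ : ℤ) : F) * ((sg x ρ : ℤ) : F)) := by
            rw [← Int.cast_mul, e1, Int.cast_neg, Int.cast_mul]
          rw [← mul_assoc, e2]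
          ring
      rw [Finset.sum_congr rfl key, ← Finset.mul_sum]
      have h5 : ∑ x ∈ univ \ τ, ((sg x ρ : ℤ) : F) * c (insert x ρ)
          = - (((sg a ρ : ℤ) : F) * c τ) := by
        rw [eq_neg_iff_add_eq_zero, add_comm]; exact h0
      rw [h5]
      have h6 := sgF_mul_self (F := F) a ρ
      calc - ((sg a ρ : ℤ) : F) * - (((sg a ρ : ℤ) : F) * c τ)
          = (((sg a ρ : ℤ) : F) * ((sg a ρ : ℤ) : F)) * c τ := by ring
        _ = c τ := by rw [h6, one_mul]
    · have hmem : a ∈ univ \ τ := by simp [haτ]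
      rw [Finset.sum_eq_single_of_mem a hmem]
      · rw [if_pos (Finset.mem_insert_self a τ), Finset.erase_insert haτ, ← mul_assoc,
          sgF_mul_self, one_mul]
      · intro x _ hxa
        rw [if_neg, mul_zero]
        intro hh
        rcases Finset.mem_insert.1 hh with h1 | h1
        · exact hxa h1.symm
        · exact haτ h1

theorem acyc_union (Q₁ Q₂ : Finset X) (h : ∀ σ, Ch (Q₁ ∪ Q₂) σ → σ ⊆ Q₁ ∨ σ ⊆ Q₂)
    (h1 : Acyc F Q₁) (h2 : Acyc F Q₂) (h12 : Acyc F (Q₁ ∩ Q₂)) : Acyc F (Q₁ ∪ Q₂) := by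
  classical
  intro c hc hcyc
  set c1 : Finset X → F := fun σ => if σ ⊆ Q₁ then c σ else 0 with hc1
  set c2 : Finset X → F := fun σ => if σ ⊆ Q₁ then 0 else c σ with hc2
  have hsum : c = c1 + c2 := by
    funext σ
    simp only [hc1, hc2, Pi.add_apply]
    split_ifs <;> simp
  have s1 : Supp Q₁ c1 := by
    intro σ hσ
    by_cases hs : σ ⊆ Q₁
    · simp only [hc1, if_pos hs] at hσ
      exact ⟨hs, (hc σ hσ).2⟩
    · simp only [hc1, if_neg hs] at hσ
      exact absurd rfl hσ
  have s2 : Supp Q₂ c2 := by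
    intro σ hσ
    by_cases hs : σ ⊆ Q₁
    · simp only [hc2, if_pos hs] at hσ
      exact absurd rfl hσ
    · simp only [hc2, if_neg hs] at hσ
      rcases h σ (hc σ hσ) with h3 | h3
      · exact absurd h3 hs
      · exact ⟨h3, (hc σ hσ).2⟩
  have hb : bd F c1 + bd F c2 = 0 := by rw [← bd_add, ← hsum, hcyc]
  have s12 : Supp (Q₁ ∩ Q₂) (bd F c1) := by
    intro σ hσ
    have hσ1 := s1.bd σ hσ
    have hσ2 : bd F c2 σ ≠ 0 := by
      intro h0
      apply hσ
      have := congrFun hb σ
      simp only [Pi.add_apply, Pi.zero_apply] at this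
      rw [h0, add_zero] at this
      exact this
    have hσ3 := s2.bd σ hσ2
    exact ⟨Finset.subset_inter hσ1.1 hσ3.1, hσ1.2⟩
  obtain ⟨b, hbs, hbb⟩ := h12 (bd F c1) s12 (bd_bd s1)
  have sb1 : Supp Q₁ b := fun σ hσ =>
    ⟨(hbs σ hσ).1.trans Finset.inter_subset_left, (hbs σ hσ).2⟩
  have sb2 : Supp Q₂ b := fun σ hσ =>
    ⟨(hbs σ hσ).1.trans Finset.inter_subset_right, (hbs σ hσ).2⟩
  have sub1 : Supp Q₁ (c1 + -b) := by
    intro σ hσ
    by_cases h3 : c1 σ = 0
    · have : b σ ≠ 0 := by
        intro h4; apply hσ; simp [h3, h4]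
      exact sb1 σ this
    · exact s1 σ h3
  have sub2 : Supp Q₂ (c2 + b) := by
    intro σ hσ
    by_cases h3 : c2 σ = 0
    · have : b σ ≠ 0 := by
        intro h4; apply hσ; simp [h3, h4]
      exact sb2 σ this
    · exact s2 σ h3
  obtain ⟨a1, ha1s, ha1⟩ := h1 (c1 + -b) sub1 (by
    rw [bd_add, bd_neg, hbb]; simp)
  obtain ⟨a2, ha2s, ha2⟩ := h2 (c2 + b) sub2 (by
    rw [bd_add, hbb, add_comm]; exact hb)
  refine ⟨a1 + a2, ?_, ?_⟩
  · intro σ hσ
    by_cases h3 : a1 σ = 0
    · have : a2 σ ≠ 0 := by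
        intro h4; apply hσ; simp [h3, h4]
      exact ⟨(ha2s σ this).1.trans Finset.subset_union_right, (ha2s σ this).2⟩
    · exact ⟨(ha1s σ h3).1.trans Finset.subset_union_left, (ha1s σ h3).2⟩
  · rw [bd_add, ha1, ha2, hsum]
    abel

end T1

end Pool.Agent.H98R2.Ev
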