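import Mathlib
import Pool.Agent.H23.L.Ev.Defs
import Pool.Agent.H23.L.Ev.T1
import Pool.Agent.H23.L.Ev.T4

set_option autoImplicit false
set_option linter.unusedSectionVars false
set_option linter.unusedVariables false

/-! Smith theory for order complexes (task E5). -/

namespace Pool.Agent.H98R2.Ev

open Finset

universe u

/- ===== T5 ===== (file Ev/T5.lean; may import T1, T4) Smith theory -/
section T5
variable {X : Type u} [DecidableEq X] [PartialOrder X] [Fintype X]

theorem chain_fixed (g : X ≃o X) (σ : Finset X) (h : IsChain (· ≤ ·) (σ : Set X))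
    (hg : σ.map g.toEmbedding = σ) : ∀ x ∈ σ, g x = x := by
  have hmem : ∀ x ∈ σ, g x ∈ σ := by
    intro x hx
    have : g x ∈ σ.map g.toEmbedding := Finset.mem_map.mpr ⟨x, hx, rfl⟩
    rwa [hg] at this
  -- the rank of `x` in the chain is preserved
  by_contra hcon
  push Not at hcon
  obtain ⟨x, hx, hne⟩ := hcon
  -- iterates stay in the chain
  have hit : ∀ n : ℕ, (g^[n]) x ∈ σ := by
    intro n
    induction n with
    | zero => exact hx
    | succ n ih => rw [Function.iterate_succ_apply']; exact hmem _ ih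
  have hinj : Function.Injective fun n : ℕ => (g^[n]) x := by
    rcases h hx (hmem x hx) (Ne.symm hne) with hle | hle
    · have hlt : x < g x := lt_of_le_of_ne hle (Ne.symm hne)
      have hmono : StrictMono fun n : ℕ => (g^[n]) x := by
        apply strictMono_nat_of_lt_succ
        intro n
        induction n with
        | zero => simpa using hlt
        | succ n ih =>
          simp only [Function.iterate_succ_apply'] at ih ⊢
          exact g.lt_iff_lt.mpr ih
      exact hmono.injective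
    · have hlt : g x < x := lt_of_le_of_ne hle hne
      have hmono : StrictAnti fun n : ℕ => (g^[n]) x := by
        apply strictAnti_nat_of_succ_lt
        intro n
        induction n with
        | zero => simpa using hlt
        | succ n ih =>
          simp only [Function.iterate_succ_apply'] at ih ⊢
          exact g.lt_iff_lt.mpr ih
      exact hmono.injective
  exact not_injective_infinite_finite _ hinj

section aux

variable {F : Type} [CommRing F]

theorem T5_bd_sub (a b : Finset X → F) : bd F (a - b) = bd F a - bd F b := by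
  funext τ
  simp only [bd, Pi.sub_apply, mul_sub, Finset.sum_sub_distrib]

theorem T5_bd_zero : bd F (0 : Finset X → F) = 0 := by
  funext τ
  simp [bd]

theorem T5_bd_sum {ι : Type*} (s : Finset ι) (c : ι → Finset X → F) :
    bd F (∑ i ∈ s, c i) = ∑ i ∈ s, bd F (c i) := by
  classical
  induction s using Finset.induction_on with
  | empty => simp [T5_bd_zero]
  | insert a s ha ih => rw [Finset.sum_insert ha, Finset.sum_insert ha, bd_add, ih]

theorem T5_supp_add {Q : Finset X} {a b : Finset X → F} (ha : Supp Q a) (hb : Supp Q b) :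
    Supp Q (a + b) := by
  intro σ hσ
  by_cases h : a σ = 0
  · refine hb σ fun h' => hσ ?_
    simp [h, h']
  · exact ha σ h

theorem T5_supp_sub {Q : Finset X} {a b : Finset X → F} (ha : Supp Q a) (hb : Supp Q b) :
    Supp Q (a - b) := by
  intro σ hσ
  by_cases h : a σ = 0
  · refine hb σ fun h' => hσ ?_
    simp [h, h']
  · exact ha σ h

theorem T5_supp_zero {Q : Finset X} : Supp Q (0 : Finset X → F) := by
  intro σ hσ; exact absurd rfl hσ

theorem T5_supp_sum {ι : Type*} {Q : Finset X} (s : Finset ι) (c : ι → Finset X → F)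
    (h : ∀ i ∈ s, Supp Q (c i)) : Supp Q (∑ i ∈ s, c i) := by
  classical
  induction s using Finset.induction_on with
  | empty => simpa using T5_supp_zero
  | insert a s ha ih =>
    rw [Finset.sum_insert ha]
    exact T5_supp_add (h a (mem_insert_self _ _)) (ih fun i hi => h i (mem_insert_of_mem hi))

/-- homogeneous of degree `m` -/
def T5Hom (m : ℕ) (c : Finset X → F) : Prop := ∀ σ, c σ ≠ 0 → σ.card = m

/-- the homogeneous component of degree `m` -/
def T5res (m : ℕ) (c : Finset X → F) : Finset X → F := fun σ => if σ.card = m then c σ else 0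

theorem T5_res_hom (m : ℕ) (c : Finset X → F) : T5Hom m (T5res m c) := by
  intro σ hσ
  by_contra h
  exact hσ (by simp [T5res, h])

theorem T5_res_of_hom {m : ℕ} {c : Finset X → F} (h : T5Hom m c) : T5res m c = c := by
  funext σ
  by_cases hσ : σ.card = m
  · simp [T5res, hσ]
  · have : c σ = 0 := by by_contra h'; exact hσ (h σ h')
    simp [T5res, hσ, this]

theorem T5_res_supp {Q : Finset X} {c : Finset X → F} (h : Supp Q c) (m : ℕ) :
    Supp Q (T5res m c) := by
  intro σ hσ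
  refine h σ fun h' => hσ ?_
  simp [T5res, h']

theorem T5_bd_res (m : ℕ) (c : Finset X → F) : bd F (T5res (m + 1) c) = T5res m (bd F c) := by
  funext τ
  by_cases hτ : τ.card = m
  · simp only [bd, T5res, hτ, if_true]
    refine Finset.sum_congr rfl fun x hx => ?_
    have hx' : x ∉ τ := (Finset.mem_sdiff.mp hx).2
    rw [Finset.card_insert_of_notMem hx', hτ, if_pos rfl]
  · simp only [bd, T5res, hτ, if_false]
    refine Finset.sum_eq_zero fun x hx => ?_
    have hx' : x ∉ τ := (Finset.mem_sdiff.mp hx).2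
    rw [Finset.card_insert_of_notMem hx', if_neg (by omega), mul_zero]

theorem T5_bd_res_zero (c : Finset X → F) : bd F (T5res 0 c) = 0 := by
  funext τ
  simp only [bd, T5res, Pi.zero_apply]
  refine Finset.sum_eq_zero fun x hx => ?_
  rw [if_neg, mul_zero]
  rw [Finset.card_eq_zero]
  exact Finset.insert_ne_empty _ _

theorem T5_hom_bd {m : ℕ} {c : Finset X → F} (h : T5Hom (m + 1) c) : T5Hom m (bd F c) := by
  rw [← T5_res_of_hom h, T5_bd_res]
  exact T5_res_hom m _

theorem T5_hom_sub {m : ℕ} {a b : Finset X → F} (ha : T5Hom m a) (hb : T5Hom m b) :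
    T5Hom m (a - b) := by
  intro σ hσ
  by_cases h : a σ = 0
  · refine hb σ fun h' => hσ ?_
    simp [h, h']
  · exact ha σ h

theorem T5_sum_res (c : Finset X → F) :
    ∑ m ∈ range (Fintype.card X + 1), T5res m c = c := by
  funext σ
  rw [Finset.sum_apply]
  simp only [T5res]
  rw [Finset.sum_ite_eq]
  rw [if_pos]
  rw [Finset.mem_range]
  have := Finset.card_le_univ σ
  omega

end aux

/-- the permutation of the simplices induced by `g` -/
def T5ga (g : X ≃o X) : Equiv.Perm (Finset X) := Equiv.finsetCongr g.toEquiv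

theorem T5ga_apply (g : X ≃o X) (σ : Finset X) : T5ga g σ = σ.map g.toEmbedding := rfl

theorem T5ga_card (g : X ≃o X) (σ : Finset X) : (T5ga g σ).card = σ.card := by
  rw [T5ga_apply, Finset.card_map]

theorem T5ga_pow_card (g : X ≃o X) (n : ℕ) (σ : Finset X) : ((T5ga g ^ n) σ).card = σ.card := by
  induction n with
  | zero => simp
  | succ n ih => rw [pow_succ', Equiv.Perm.mul_apply, T5ga_card, ih]

theorem T5ga_mem (g : X ≃o X) (σ : Finset X) (x : X) : g x ∈ T5ga g σ ↔ x ∈ σ := by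
  rw [T5ga_apply]
  constructor
  · intro h
    obtain ⟨y, hy, hxy⟩ := Finset.mem_map.mp h
    have : y = x := g.injective hxy
    rwa [← this]
  · intro h
    exact Finset.mem_map.mpr ⟨x, h, rfl⟩

theorem T5ga_pow (g : X ≃o X) (n : ℕ) (σ : Finset X) :
    (T5ga g ^ n) σ = σ.image (g^[n]) := by
  induction n with
  | zero => simp
  | succ n ih =>
    rw [pow_succ', Equiv.Perm.mul_apply, ih, T5ga_apply, Finset.map_eq_image,
      Finset.image_image]
    congr 1
    funext x
    rw [Function.iterate_succ_apply']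
    rfl

theorem T5ga_pow_eq_one (g : X ≃o X) (p : ℕ) (hp : ∀ x, g^[p] x = x) : T5ga g ^ p = 1 := by
  ext1 σ
  rw [T5ga_pow]
  have : (g^[p] : X → X) = id := funext hp
  rw [this, Finset.image_id]
  rfl

theorem T5_sg (g : X ≃o X) (x : X) (σ : Finset X) : sg (g x) (T5ga g σ) = sg x σ := by
  classical
  unfold sg
  have h : (T5ga g σ).filter (fun y => y < g x) = (σ.filter (fun y => y < x)).map g.toEmbedding := by
    ext y
    simp only [Finset.mem_filter, Finset.mem_map, T5ga_apply]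
    constructor
    · rintro ⟨⟨z, hz, rfl⟩, hlt⟩
      exact ⟨z, ⟨hz, g.lt_iff_lt.mp hlt⟩, rfl⟩
    · rintro ⟨z, ⟨hz, hlt⟩, rfl⟩
      exact ⟨⟨z, hz, rfl⟩, g.lt_iff_lt.mpr hlt⟩
  have h2 : ((T5ga g σ).filter (fun y => y < g x)).card = (σ.filter (fun y => y < x)).card := by
    rw [h, Finset.card_map]
  convert congrArg (fun n : ℕ => (-1 : ℤ) ^ n) h2

variable {F : Type} [CommRing F]

theorem T5_bd_ga (g : X ≃o X) (c : Finset X → F) :
    bd F (fun σ => c (T5ga g σ)) = fun σ => bd F c (T5ga g σ) := by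
  funext τ
  unfold bd
  refine Finset.sum_bij (fun x _ => g x) ?_ ?_ ?_ ?_
  · intro x hx
    rw [Finset.mem_sdiff] at hx ⊢
    exact ⟨mem_univ _, fun h => hx.2 ((T5ga_mem g τ x).mp h)⟩
  · intro x _ y _ h
    exact g.injective h
  · intro y hy
    refine ⟨g.symm y, ?_, by simp⟩
    rw [Finset.mem_sdiff] at hy ⊢
    refine ⟨mem_univ _, fun h => hy.2 ?_⟩
    have := (T5ga_mem g τ (g.symm y)).mpr h
    simpa using this
  · intro x hx
    rw [T5_sg]
    have h : T5ga g (insert x τ) = insert (g x) (T5ga g τ) := by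
      rw [T5ga_apply, T5ga_apply, Finset.map_insert]
      rfl
    rw [← h]

theorem T5_bd_ga_pow (g : X ≃o X) (n : ℕ) (c : Finset X → F) :
    bd F (fun σ => c ((T5ga g ^ n) σ)) = fun σ => bd F c ((T5ga g ^ n) σ) := by
  induction n generalizing c with
  | zero => simp
  | succ n ih =>
    have h1 : (fun σ => c ((T5ga g ^ (n + 1)) σ)) =
        fun σ => (fun ρ => c ((T5ga g ^ n) ρ)) (T5ga g σ) := by
      funext σ
      rw [pow_succ, Equiv.Perm.mul_apply]
    rw [h1, T5_bd_ga g (fun ρ => c ((T5ga g ^ n) ρ)), ih]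
    funext σ
    rw [pow_succ, Equiv.Perm.mul_apply]

/-- `1 - g` -/
def T5tau (g : X ≃o X) (c : Finset X → F) : Finset X → F := fun σ => c σ - c (T5ga g σ)

/-- `1 + g + ... + g^{p-1}` -/
def T5nu (p : ℕ) (g : X ≃o X) (c : Finset X → F) : Finset X → F :=
  fun σ => ∑ i ∈ range p, c ((T5ga g ^ i) σ)

theorem T5_bd_tau (g : X ≃o X) (c : Finset X → F) : bd F (T5tau g c) = T5tau g (bd F c) := by
  have : T5tau g c = c - fun σ => c (T5ga g σ) := rfl
  rw [this, T5_bd_sub, T5_bd_ga]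
  rfl

theorem T5_bd_nu (p : ℕ) (g : X ≃o X) (c : Finset X → F) :
    bd F (T5nu p g c) = T5nu p g (bd F c) := by
  have : T5nu p g c = ∑ i ∈ range p, fun σ => c ((T5ga g ^ i) σ) := by
    funext σ
    rw [Finset.sum_apply]
    rfl
  rw [this, T5_bd_sum]
  funext σ
  rw [Finset.sum_apply]
  unfold T5nu
  refine Finset.sum_congr rfl fun i _ => ?_
  rw [T5_bd_ga_pow]

theorem T5_tau_sub (g : X ≃o X) (a b : Finset X → F) :
    T5tau g (a - b) = T5tau g a - T5tau g b := by
  funext σ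
  simp only [T5tau, Pi.sub_apply]
  ring

theorem T5_nu_sub (p : ℕ) (g : X ≃o X) (a b : Finset X → F) :
    T5nu p g (a - b) = T5nu p g a - T5nu p g b := by
  funext σ
  simp only [T5nu, Pi.sub_apply, Finset.sum_sub_distrib]

theorem T5_hom_tau {m : ℕ} (g : X ≃o X) {c : Finset X → F} (h : T5Hom m c) :
    T5Hom m (T5tau g c) := by
  intro σ hσ
  by_cases h1 : c σ = 0
  · have h2 : c (T5ga g σ) ≠ 0 := fun h' => hσ (by simp [T5tau, h1, h'])
    rw [← T5ga_card g σ]
    exact h _ h2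
  · exact h σ h1

theorem T5_hom_nu {m : ℕ} (p : ℕ) (g : X ≃o X) {c : Finset X → F} (h : T5Hom m c) :
    T5Hom m (T5nu p g c) := by
  intro σ hσ
  by_contra hm
  apply hσ
  unfold T5nu
  refine Finset.sum_eq_zero fun i _ => ?_
  by_contra h2
  exact hm (by rw [← T5ga_pow_card g i σ]; exact h _ h2)

theorem T5_tau_nu (p : ℕ) (g : X ≃o X) (hp : ∀ x, g^[p] x = x) (c : Finset X → F) :
    T5tau g (T5nu p g c) = 0 := by
  funext σ
  simp only [T5tau, T5nu, Pi.zero_apply]
  have h1 : ∀ i, c ((T5ga g ^ i) (T5ga g σ)) = c ((T5ga g ^ (i + 1)) σ) := by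
    intro i; rw [pow_succ, Equiv.Perm.mul_apply]
  simp only [h1]
  have h2 := Finset.sum_range_succ' (fun i => c ((T5ga g ^ i) σ)) p
  have h3 := Finset.sum_range_succ (fun i => c ((T5ga g ^ i) σ)) p
  rw [T5ga_pow_eq_one g p hp] at h3
  have h4 : c ((T5ga g ^ 0) σ) = c σ := by simp
  have h5 : c ((1 : Equiv.Perm (Finset X)) σ) = c σ := by simp
  rw [h4] at h2
  rw [h5] at h3
  have := h2.symm.trans h3
  rw [sub_eq_zero]
  exact (add_right_cancel this).symm

theorem T5_nu_tau (p : ℕ) (g : X ≃o X) (hp : ∀ x, g^[p] x = x) (c : Finset X → F) :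
    T5nu p g (T5tau g c) = 0 := by
  funext σ
  simp only [T5tau, T5nu, Pi.zero_apply, Finset.sum_sub_distrib]
  have h1 : ∀ i, c (T5ga g ((T5ga g ^ i) σ)) = c ((T5ga g ^ (i + 1)) σ) := by
    intro i; rw [pow_succ', Equiv.Perm.mul_apply]
  simp only [h1]
  have h2 := Finset.sum_range_succ' (fun i => c ((T5ga g ^ i) σ)) p
  have h3 := Finset.sum_range_succ (fun i => c ((T5ga g ^ i) σ)) p
  rw [T5ga_pow_eq_one g p hp] at h3
  have h4 : c ((T5ga g ^ 0) σ) = c σ := by simp
  have h5 : c ((1 : Equiv.Perm (Finset X)) σ) = c σ := by simp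
  rw [h4] at h2
  rw [h5] at h3
  have := h2.symm.trans h3
  rw [sub_eq_zero]
  exact (add_right_cancel this).symm

section smith

variable {Q : Finset X} {g : X ≃o X}

theorem T5_mem_iff (hg : ∀ x ∈ Q, g x ∈ Q) (x : X) : g x ∈ Q ↔ x ∈ Q := by
  constructor
  · intro h
    have h1 : Q.image g ⊆ Q := by
      intro y hy
      obtain ⟨z, hz, rfl⟩ := Finset.mem_image.mp hy
      exact hg z hz
    have h2 : Q.image g = Q :=
      Finset.eq_of_subset_of_card_le h1 (by rw [Finset.card_image_of_injective _ g.injective])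
    rw [← h2] at h
    obtain ⟨z, hz, hzx⟩ := Finset.mem_image.mp h
    have : z = x := g.injective hzx
    rwa [← this]
  · exact hg x

theorem T5_ch_ga (hg : ∀ x ∈ Q, g x ∈ Q) (σ : Finset X) : Ch Q (T5ga g σ) ↔ Ch Q σ := by
  constructor
  · rintro ⟨h1, h2⟩
    refine ⟨fun x hx => (T5_mem_iff hg x).mp (h1 ((T5ga_mem g σ x).mpr hx)), ?_⟩
    intro x hx y hy hxy
    have := h2 (show g x ∈ (T5ga g σ : Set X) from (T5ga_mem g σ x).mpr hx)
      (show g y ∈ (T5ga g σ : Set X) from (T5ga_mem g σ y).mpr hy) (fun h => hxy (g.injective h))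
    rcases this with h | h
    · exact Or.inl (g.le_iff_le.mp h)
    · exact Or.inr (g.le_iff_le.mp h)
  · rintro ⟨h1, h2⟩
    refine ⟨?_, ?_⟩
    · intro x hx
      obtain ⟨z, hz, rfl⟩ := Finset.mem_map.mp hx
      exact hg z (h1 hz)
    · intro x hx y hy hxy
      obtain ⟨z, hz, rfl⟩ := Finset.mem_map.mp hx
      obtain ⟨w, hw, rfl⟩ := Finset.mem_map.mp hy
      have hzw : z ≠ w := fun h => hxy (by rw [h])
      rcases h2 hz hw hzw with h | h
      · exact Or.inl (g.le_iff_le.mpr h)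
      · exact Or.inr (g.le_iff_le.mpr h)

theorem T5_ch_ga_pow (hg : ∀ x ∈ Q, g x ∈ Q) (n : ℕ) (σ : Finset X) :
    Ch Q ((T5ga g ^ n) σ) ↔ Ch Q σ := by
  induction n with
  | zero => simp
  | succ n ih => rw [pow_succ', Equiv.Perm.mul_apply, T5_ch_ga hg, ih]

theorem T5_supp_tau (hg : ∀ x ∈ Q, g x ∈ Q) {c : Finset X → F} (h : Supp Q c) :
    Supp Q (T5tau g c) := by
  intro σ hσ
  by_cases h1 : c σ = 0
  · have h2 : c (T5ga g σ) ≠ 0 := fun h' => hσ (by simp [T5tau, h1, h'])
    exact (T5_ch_ga hg σ).mp (h _ h2)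
  · exact h σ h1

theorem T5_supp_nu (hg : ∀ x ∈ Q, g x ∈ Q) (p : ℕ) {c : Finset X → F} (h : Supp Q c) :
    Supp Q (T5nu p g c) := by
  intro σ hσ
  by_contra hm
  apply hσ
  unfold T5nu
  refine Finset.sum_eq_zero fun i _ => ?_
  by_contra h2
  exact hm ((T5_ch_ga_pow hg i σ).mp (h _ h2))

theorem T5_fix_sub : fixIn Q g ⊆ Q := by
  unfold fixIn
  exact Finset.filter_subset _ _

theorem T5_ch_mono {P R : Finset X} (h : P ⊆ R) {σ : Finset X} (hσ : Ch P σ) : Ch R σ :=
  ⟨hσ.1.trans h, hσ.2⟩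

theorem T5_supp_mono {P R : Finset X} (h : P ⊆ R) {c : Finset X → F} (hc : Supp P c) :
    Supp R c := fun σ hσ => T5_ch_mono h (hc σ hσ)

/-- chains of fixed points are fixed -/
theorem T5_ga_of_fix {σ : Finset X} (h : Ch (fixIn Q g) σ) : T5ga g σ = σ := by
  have hx : ∀ x ∈ σ, g x = x := by
    intro x hx
    have := h.1 hx
    unfold fixIn at this
    exact (Finset.mem_filter.mp this).2
  rw [T5ga_apply]
  ext y
  rw [Finset.mem_map]
  constructor
  · rintro ⟨z, hz, rfl⟩
    show g z ∈ σ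
    rw [hx z hz]; exact hz
  · intro hy
    exact ⟨y, hy, hx y hy⟩

/-- invariant chains of `Q` are chains of fixed points -/
theorem T5_fix_of_ga {σ : Finset X} (hσ : Ch Q σ) (h : T5ga g σ = σ) : Ch (fixIn Q g) σ := by
  refine ⟨fun x hx => ?_, hσ.2⟩
  unfold fixIn
  rw [Finset.mem_filter]
  exact ⟨hσ.1 hx, chain_fixed g σ hσ.2 h x hx⟩

theorem T5_tau_fixed {σ : Finset X} (h : T5ga g σ = σ) (c : Finset X → F) :
    T5tau g c σ = 0 := by
  simp [T5tau, h]

theorem T5_ga_pow_fixed {σ : Finset X} (h : T5ga g σ = σ) (n : ℕ) : (T5ga g ^ n) σ = σ := by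
  induction n with
  | zero => simp
  | succ n ih => rw [pow_succ', Equiv.Perm.mul_apply, ih, h]

theorem T5_nu_fixed (p : ℕ) {σ : Finset X} (h : T5ga g σ = σ) (c : Finset X → ZMod p) :
    T5nu p g c σ = 0 := by
  unfold T5nu
  simp [T5_ga_pow_fixed h]

theorem T5_tau_D {d : Finset X → F} (hd : Supp (fixIn Q g) d) : T5tau g d = 0 := by
  funext σ
  by_cases h : T5ga g σ = σ
  · simp [T5_tau_fixed h]
  · have h1 : d σ = 0 := by
      by_contra h'; exact h (T5_ga_of_fix (hd σ h'))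
    have h2 : d (T5ga g σ) = 0 := by
      by_contra h'
      have := T5_ga_of_fix (hd _ h')
      exact h ((T5ga g).injective this)
    simp [T5tau, h1, h2]

/-- if `f` vanishes at fixed simplices and equals something supported on fixed chains, it is 0. -/
theorem T5_split {f d : Finset X → F} (hd : Supp (fixIn Q g) d) (hfd : f = d)
    (hf : ∀ σ, T5ga g σ = σ → f σ = 0) : f = 0 := by
  funext σ
  by_cases h : T5ga g σ = σ
  · exact hf σ h
  · rw [hfd]
    by_contra h'
    exact h (T5_ga_of_fix (hd σ h'))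

theorem T5_K1 (p : ℕ) [Fact p.Prime] (hg : ∀ x ∈ Q, g x ∈ Q) (hp : ∀ x, g^[p] x = x)
    {m : ℕ} {c : Finset X → ZMod p} (hc : Supp Q c) (hm : T5Hom m c) (ht : T5tau g c = 0) :
    ∃ d z : Finset X → ZMod p, Supp (fixIn Q g) d ∧ Supp Q z ∧ T5Hom m d ∧ T5Hom m z ∧
      c = d + T5nu p g z := by
  have hinv : ∀ y, c (T5ga g y) = c y := by
    intro y
    have := congrFun ht y
    simp only [T5tau, Pi.zero_apply, sub_eq_zero] at this
    exact this.symm
  obtain ⟨z, hz1, hz2⟩ := inv_decomp p (T5ga g) (T5ga_pow_eq_one g p hp) c hinv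
  have hd : ∀ σ, (c - T5nu p g z) σ ≠ 0 → T5ga g σ = σ ∧ c σ ≠ 0 := by
    intro σ hσ
    have hfix : T5ga g σ = σ := by
      by_contra h
      apply hσ
      rw [Pi.sub_apply, hz2 σ h]
      exact sub_self _
    refine ⟨hfix, ?_⟩
    rw [Pi.sub_apply, T5_nu_fixed p hfix, sub_zero] at hσ
    exact hσ
  refine ⟨c - T5nu p g z, z, ?_, fun y hy => hc y (hz1 y hy), ?_, fun y hy => hm y (hz1 y hy),
    (sub_add_cancel _ _).symm⟩
  · intro σ hσ
    obtain ⟨h1, h2⟩ := hd σ hσ
    exact T5_fix_of_ga (hc σ h2) h1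
  · intro σ hσ
    exact hm σ (hd σ hσ).2

theorem T5_K2 (p : ℕ) [Fact p.Prime] (hg : ∀ x ∈ Q, g x ∈ Q) (hp : ∀ x, g^[p] x = x)
    {m : ℕ} {c : Finset X → ZMod p} (hc : Supp Q c) (hm : T5Hom m c) (ht : T5nu p g c = 0) :
    ∃ d z : Finset X → ZMod p, Supp (fixIn Q g) d ∧ Supp Q z ∧ T5Hom m d ∧ T5Hom m z ∧
      c = d + T5tau g z := by
  have hinv : ∀ y, ∑ i ∈ range p, c ((T5ga g ^ i) y) = 0 := fun y => congrFun ht y
  obtain ⟨z, hz1, hz2⟩ := norm_decomp p (T5ga g) (T5ga_pow_eq_one g p hp) c hinv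
  have hd : ∀ σ, (c - T5tau g z) σ ≠ 0 → T5ga g σ = σ ∧ c σ ≠ 0 := by
    intro σ hσ
    have hfix : T5ga g σ = σ := by
      by_contra h
      apply hσ
      rw [Pi.sub_apply, hz2 σ h]
      exact sub_self _
    refine ⟨hfix, ?_⟩
    rw [Pi.sub_apply, T5_tau_fixed hfix, sub_zero] at hσ
    exact hσ
  refine ⟨c - T5tau g z, z, ?_, ?_, ?_, ?_, (sub_add_cancel _ _).symm⟩
  · intro σ hσ
    obtain ⟨h1, h2⟩ := hd σ hσ
    exact T5_fix_of_ga (hc σ h2) h1
  · intro y hy
    obtain ⟨i, _, hi⟩ := hz1 y hy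
    exact (T5_ch_ga_pow hg i y).mp (hc _ hi)
  · intro σ hσ
    exact hm σ (hd σ hσ).2
  · intro y hy
    obtain ⟨i, _, hi⟩ := hz1 y hy
    rw [← T5ga_pow_card g i y]
    exact hm _ hi

/-- the two statements of the descending induction -/
def T5P (p : ℕ) (Q : Finset X) (g : X ≃o X) (m : ℕ) : Prop :=
  (∀ c : Finset X → ZMod p, Supp Q c → T5Hom m c → T5tau g c = 0 → bd (ZMod p) c = 0 →
    ∃ b : Finset X → ZMod p, Supp Q b ∧ T5Hom (m + 1) b ∧ T5tau g b = 0 ∧ bd (ZMod p) b = c) ∧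
  (∀ c : Finset X → ZMod p, Supp Q c → T5Hom m c → T5nu p g c = 0 → bd (ZMod p) c = 0 →
    ∃ b : Finset X → ZMod p, Supp Q b ∧ T5Hom (m + 1) b ∧ T5nu p g b = 0 ∧ bd (ZMod p) b = c)

theorem T5_bound (p : ℕ) (hQ : Acyc (ZMod p) Q) {m : ℕ} {c : Finset X → ZMod p} (hc : Supp Q c)
    (hm : T5Hom m c) (hb : bd (ZMod p) c = 0) :
    ∃ y : Finset X → ZMod p, Supp Q y ∧ T5Hom (m + 1) y ∧ bd (ZMod p) y = c := by
  obtain ⟨y, hy, hyc⟩ := hQ c hc hb
  refine ⟨T5res (m + 1) y, T5_res_supp hy _, T5_res_hom _ _, ?_⟩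
  rw [T5_bd_res, hyc, T5_res_of_hom hm]

theorem T5_main (p : ℕ) [Fact p.Prime] (hQ : Acyc (ZMod p) Q) (hg : ∀ x ∈ Q, g x ∈ Q)
    (hp : ∀ x, g^[p] x = x) : ∀ k m : ℕ, Fintype.card X + 1 ≤ m + k → T5P p Q g m := by
  intro k
  induction k with
  | zero =>
    intro m hm
    have hz : ∀ c : Finset X → ZMod p, T5Hom m c → c = 0 := by
      intro c hc
      funext σ
      by_contra h
      have h1 := hc σ h
      have h2 := Finset.card_le_univ σ
      omega
    constructor
    · intro c _ hc _ _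
      refine ⟨0, T5_supp_zero, ?_, ?_, ?_⟩
      · intro σ hσ; exact absurd rfl hσ
      · funext σ; simp [T5tau]
      · rw [T5_bd_zero, hz c hc]
    · intro c _ hc _ _
      refine ⟨0, T5_supp_zero, ?_, ?_, ?_⟩
      · intro σ hσ; exact absurd rfl hσ
      · funext σ; simp [T5nu]
      · rw [T5_bd_zero, hz c hc]
  | succ k ih =>
    intro m hm
    obtain ⟨hA, hB⟩ := ih (m + 1) (by omega)
    constructor
    · intro c hc hmc ht hb
      obtain ⟨y, hy, hym, hyc⟩ := T5_bound p hQ hc hmc hb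
      obtain ⟨w, hw, hwm, hwn, hwy⟩ := hB (T5tau g y) (T5_supp_tau hg hy) (T5_hom_tau g hym)
        (T5_nu_tau p g hp y) (by rw [T5_bd_tau, hyc, ht])
      obtain ⟨d, z, hd, hz, hdm, hzm, hwdz⟩ := T5_K2 p hg hp hw hwm hwn
      have heq : T5tau g (y - bd (ZMod p) z) = bd (ZMod p) d := by
        rw [T5_tau_sub, ← T5_bd_tau, ← hwy, hwdz, bd_add]
        exact add_sub_cancel_right _ _
      have h0 : T5tau g (y - bd (ZMod p) z) = 0 :=
        T5_split (Supp.bd hd) heq (fun σ hσ => T5_tau_fixed hσ _)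
      refine ⟨y - bd (ZMod p) z, T5_supp_sub hy (Supp.bd hz), T5_hom_sub hym (T5_hom_bd hzm), h0, ?_⟩
      rw [T5_bd_sub, bd_bd hz, hyc, sub_zero]
    · intro c hc hmc ht hb
      obtain ⟨y, hy, hym, hyc⟩ := T5_bound p hQ hc hmc hb
      obtain ⟨w, hw, hwm, hwn, hwy⟩ := hA (T5nu p g y) (T5_supp_nu hg p hy) (T5_hom_nu p g hym)
        (T5_tau_nu p g hp y) (by rw [T5_bd_nu, hyc, ht])
      obtain ⟨d, z, hd, hz, hdm, hzm, hwdz⟩ := T5_K1 p hg hp hw hwm hwn
      have heq : T5nu p g (y - bd (ZMod p) z) = bd (ZMod p) d := by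
        rw [T5_nu_sub, ← T5_bd_nu, ← hwy, hwdz, bd_add]
        exact add_sub_cancel_right _ _
      have h0 : T5nu p g (y - bd (ZMod p) z) = 0 :=
        T5_split (Supp.bd hd) heq (fun σ hσ => T5_nu_fixed p hσ _)
      refine ⟨y - bd (ZMod p) z, T5_supp_sub hy (Supp.bd hz), T5_hom_sub hym (T5_hom_bd hzm), h0, ?_⟩
      rw [T5_bd_sub, bd_bd hz, hyc, sub_zero]

theorem T5_homog (p : ℕ) [Fact p.Prime] (hQ : Acyc (ZMod p) Q) (hg : ∀ x ∈ Q, g x ∈ Q)
    (hp : ∀ x, g^[p] x = x) {m : ℕ} {d : Finset X → ZMod p} (hd : Supp (fixIn Q g) d)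
    (hm : T5Hom m d) (hb : bd (ZMod p) d = 0) :
    ∃ e : Finset X → ZMod p, Supp (fixIn Q g) e ∧ bd (ZMod p) e = d := by
  obtain ⟨hA, -⟩ := T5_main p hQ hg hp (Fintype.card X + 1) m (by omega)
  obtain ⟨b, hb1, hb2, hb3, hb4⟩ := hA d (T5_supp_mono T5_fix_sub hd) hm (T5_tau_D hd) hb
  obtain ⟨e, z, he, hz, hem, hzm, hbez⟩ := T5_K1 p hg hp hb1 hb2 hb3
  refine ⟨e, he, ?_⟩
  have h1 : T5nu p g (bd (ZMod p) z) = d - bd (ZMod p) e := by
    rw [← T5_bd_nu, ← hb4, hbez, bd_add]
    exact (add_sub_cancel_left _ _).symm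
  have h2 : T5nu p g (bd (ZMod p) z) = 0 :=
    T5_split (T5_supp_sub hd (Supp.bd he)) h1 (fun σ hσ => T5_nu_fixed p hσ _)
  rw [h2] at h1
  exact (sub_eq_zero.mp h1.symm).symm

end smith

theorem smith (p : ℕ) [Fact p.Prime] (Q : Finset X) (hQ : Acyc (ZMod p) Q) (g : X ≃o X)
    (hg : ∀ x ∈ Q, g x ∈ Q) (hp : ∀ x, g^[p] x = x) :
    Acyc (ZMod p) (fixIn Q g) := by
  intro c hc hb
  have hcyc : ∀ m, bd (ZMod p) (T5res m c) = 0 := by
    intro m
    cases m with
    | zero => exact T5_bd_res_zero c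
    | succ m =>
      rw [T5_bd_res, hb]
      funext σ
      simp [T5res]
  choose e he1 he2 using fun m =>
    T5_homog p hQ hg hp (T5_res_supp hc m) (T5_res_hom m c) (hcyc m)
  refine ⟨∑ m ∈ range (Fintype.card X + 1), e m, T5_supp_sum _ _ fun m _ => he1 m, ?_⟩
  rw [T5_bd_sum]
  simp only [he2]
  exact T5_sum_res c
end T5

end Pool.Agent.H98R2.Ev
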