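import Pool.Agent.H23.L.Ev.Defs
import Pool.Agent.H23.L.Ev.T6Alg
import Pool.Agent.H23.L.Ev.T1

set_option autoImplicit false

/-! Task E6: Lefschetz (helper109). -/

namespace Pool.Agent.H98R2.Ev

open Finset

universe u

namespace T6

variable {X : Type u} [DecidableEq X] [PartialOrder X] [Fintype X]

/-- a chain mapped to itself by an order automorphism is fixed pointwise -/
theorem chain_fixed' (g : X ≃o X) (σ : Finset X) (h : IsChain (· ≤ ·) (σ : Set X))
    (hg : ∀ x ∈ σ, g x ∈ σ) : ∀ x ∈ σ, g x = x := by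
  intro x hx
  by_contra hne
  have hmem : ∀ n : ℕ, (g^[n]) x ∈ σ := by
    intro n
    induction n with
    | zero => exact hx
    | succ n ih => rw [Function.iterate_succ_apply']; exact hg _ ih
  have hinj : Function.Injective (fun n : ℕ => (g^[n]) x) := by
    rcases h.total hx (hg x hx) with hle | hle
    · have hlt : x < g x := lt_of_le_of_ne hle (Ne.symm hne)
      exact (StrictMono.strictMono_iterate_of_lt_map g.strictMono hlt).injective
    · have hlt : g x < x := lt_of_le_of_ne hle hne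
      exact (StrictMono.strictAnti_iterate_of_map_lt g.strictMono hlt).injective
  have h1 : Set.Infinite (Set.range (fun n : ℕ => (g^[n]) x)) := Set.infinite_range_of_injective hinj
  apply h1
  apply (σ.finite_toSet).subset
  rintro _ ⟨n, rfl⟩
  exact hmem n

theorem Ch_map {Q : Finset X} (g : X ≃o X) (hg : ∀ x ∈ Q, g x ∈ Q) {σ : Finset X} (h : Ch Q σ) :
    Ch Q (σ.map g.toEquiv.toEmbedding) := by
  constructor
  · intro y hy
    rw [Finset.mem_map] at hy
    obtain ⟨x, hx, rfl⟩ := hy
    exact hg x (h.1 hx)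
  · intro a ha b hb _
    rw [Finset.mem_coe, Finset.mem_map] at ha hb
    obtain ⟨x, hx, rfl⟩ := ha
    obtain ⟨y, hy, rfl⟩ := hb
    rcases h.2.total hx hy with h1 | h1
    · left; exact g.monotone h1
    · right; exact g.monotone h1

theorem sg_map (g : X ≃o X) (x : X) (τ : Finset X) :
    sg (g x) (τ.map g.toEquiv.toEmbedding) = sg x τ := by
  classical
  unfold sg
  congr 1
  rw [Finset.filter_map, Finset.card_map]
  congr 1
  apply Finset.filter_congr
  intro y _
  simp only [Function.comp]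
  exact g.lt_iff_lt

open Classical in
/-- extension by zero -/
noncomputable def ext {F : Type} [CommRing F] (Q : Finset X) (v : {σ : Finset X // Ch Q σ} → F) :
    Finset X → F := fun σ => if h : Ch Q σ then v ⟨σ, h⟩ else 0

theorem supp_ext {F : Type} [CommRing F] (Q : Finset X) (v : {σ : Finset X // Ch Q σ} → F) :
    Supp Q (ext Q v) := by
  intro σ hσ
  by_contra h
  apply hσ
  rw [ext, dif_neg h]

theorem ext_of_supp {F : Type} [CommRing F] (Q : Finset X) (c : Finset X → F) (hc : Supp Q c) :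
    ext Q (fun σ => c σ.1) = c := by
  funext σ
  rw [ext]
  split_ifs with h
  · rfl
  · by_contra h2
    exact h (hc σ (Ne.symm h2))

/-- the boundary matrix -/
noncomputable def MX (Q : Finset X) : Matrix {σ : Finset X // Ch Q σ} {σ : Finset X // Ch Q σ} ℤ :=
  Matrix.of fun τ σ => ∑ x ∈ univ \ τ.1, sg x τ.1 * (if insert x τ.1 = σ.1 then 1 else 0)

open Classical in
theorem sum_ext {F : Type} [CommRing F] (Q : Finset X) (v : {σ : Finset X // Ch Q σ} → F)
    (ρ : Finset X) : ∑ σ : {σ : Finset X // Ch Q σ}, (if ρ = σ.1 then 1 else 0) * v σ = ext Q v ρ := by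
  rw [ext]
  split_ifs with h
  · rw [Finset.sum_eq_single ⟨ρ, h⟩]
    · simp
    · intro b _ hb
      rw [if_neg, zero_mul]
      intro h2
      apply hb
      exact Subtype.ext h2.symm
    · intro h2
      exact absurd (Finset.mem_univ _) h2
  · apply Finset.sum_eq_zero
    intro b _
    rw [if_neg, zero_mul]
    intro h2
    apply h
    rw [h2]
    exact b.2

open Classical in
theorem MX_mulVec (F : Type) [CommRing F] (Q : Finset X) (v : {σ : Finset X // Ch Q σ} → F)
    (τ : {σ : Finset X // Ch Q σ}) :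
    (((MX Q).map (Int.castRingHom F)).mulVec v) τ = bd F (ext Q v) τ.1 := by
  rw [Matrix.mulVec, dotProduct, bd]
  have h1 : ∀ σ : {σ : Finset X // Ch Q σ}, ((MX Q).map (Int.castRingHom F)) τ σ * v σ =
      ∑ x ∈ univ \ τ.1, ((sg x τ.1 : ℤ) : F) * ((if insert x τ.1 = σ.1 then 1 else 0) * v σ) := by
    intro σ
    rw [Matrix.map_apply, MX, Matrix.of_apply, map_sum, Finset.sum_mul]
    apply Finset.sum_congr rfl
    intro x _
    rw [map_mul, mul_assoc]
    congr 2
    split_ifs <;> simp
  rw [Finset.sum_congr rfl (fun σ _ => h1 σ), Finset.sum_comm]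
  apply Finset.sum_congr rfl
  intro x _
  rw [← Finset.mul_sum, sum_ext]

open Classical in
/-- the action on chains -/
noncomputable def gI {Q : Finset X} (g : X ≃o X) (hg : ∀ x ∈ Q, g x ∈ Q) (σ : {σ : Finset X // Ch Q σ}) :
    {σ : Finset X // Ch Q σ} := ⟨σ.1.map g.toEquiv.toEmbedding, Ch_map g hg σ.2⟩

theorem gI_inj {Q : Finset X} (g : X ≃o X) (hg : ∀ x ∈ Q, g x ∈ Q) : Function.Injective (gI g hg) := by
  intro a b h
  apply Subtype.ext
  have := congrArg Subtype.val h
  exact Finset.map_injective _ this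

theorem MX_gI {Q : Finset X} (g : X ≃o X) (hg : ∀ x ∈ Q, g x ∈ Q) (τ σ : {σ : Finset X // Ch Q σ}) :
    MX Q (gI g hg τ) (gI g hg σ) = MX Q τ σ := by
  rw [MX, Matrix.of_apply, Matrix.of_apply]
  symm
  apply Finset.sum_bij (fun x _ => g x)
  · intro x hx
    rw [Finset.mem_sdiff] at hx ⊢
    refine ⟨Finset.mem_univ _, ?_⟩
    intro h
    rw [gI, Finset.mem_map] at h
    obtain ⟨y, hy, hyx⟩ := h
    have : y = x := g.injective hyx
    rw [this] at hy
    exact hx.2 hy
  · intro a _ b _ h
    exact g.injective h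
  · intro y hy
    rw [Finset.mem_sdiff] at hy
    refine ⟨g.symm y, ?_, by simp⟩
    rw [Finset.mem_sdiff]
    refine ⟨Finset.mem_univ _, ?_⟩
    intro h
    apply hy.2
    rw [gI, Finset.mem_map]
    exact ⟨g.symm y, h, by simp⟩
  · intro x _
    have hs : sg (g x) (gI g hg τ).1 = sg x τ.1 := sg_map g x τ.1
    have h1 : insert (g x) (gI g hg τ).1 = (insert x τ.1).map g.toEquiv.toEmbedding := by
      rw [gI, Finset.map_insert]
      rfl
    have h2 : insert (g x) (gI g hg τ).1 = (gI g hg σ).1 ↔ insert x τ.1 = σ.1 := by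
      rw [h1]
      exact Finset.map_inj
    rw [hs]
    by_cases h : insert x τ.1 = σ.1
    · rw [if_pos h, if_pos (h2.mpr h)]
    · rw [if_neg h, if_neg (fun h3 => h (h2.mp h3))]

theorem MX_card {Q : Finset X} (τ σ : {σ : Finset X // Ch Q σ}) (h : MX Q τ σ ≠ 0) :
    σ.1.card = τ.1.card + 1 := by
  rw [MX, Matrix.of_apply] at h
  obtain ⟨x, hx, hne⟩ := Finset.exists_ne_zero_of_sum_ne_zero h
  rw [Finset.mem_sdiff] at hx
  by_cases h2 : insert x τ.1 = σ.1
  · rw [← h2, Finset.card_insert_of_notMem hx.2]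
  · rw [if_neg h2, mul_zero] at hne
    exact absurd rfl hne

end T6

section T6
variable {X : Type u} [DecidableEq X] [PartialOrder X] [Fintype X]

open T6

open Classical in
theorem lefschetz (p : ℕ) [Fact p.Prime] (Q : Finset X) (hQ : Acyc (ZMod p) Q) (g : X ≃o X)
    (hg : ∀ x ∈ Q, g x ∈ Q) :
    ∑ σ ∈ univ.filter (fun σ : Finset X => Ch (fixIn Q g) σ), (-1 : ℤ) ^ σ.card = 0 := by
  let I := {σ : Finset X // Ch Q σ}
  let G : Matrix I I ℤ := Matrix.of fun τ σ => if gI g hg τ = σ then 1 else 0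
  let D : Matrix I I ℤ := Matrix.diagonal fun τ => (-1) ^ τ.1.card
  have hMM : MX Q * MX Q = 0 := by
    have h1 : ∀ v : I → ℤ, (MX Q * MX Q).mulVec v = 0 := by
      intro v
      have hid : (MX Q).map (Int.castRingHom ℤ) = MX Q := by ext i j; simp
      have h2 : ∀ w : I → ℤ, (MX Q).mulVec w = fun τ => bd ℤ (ext Q w) τ.1 := by
        intro w
        funext τ
        have := MX_mulVec ℤ Q w τ
        rw [hid] at this
        exact this
      rw [← Matrix.mulVec_mulVec, h2, h2]
      rw [ext_of_supp Q (bd ℤ (ext Q v)) (Supp.bd (supp_ext Q v)), bd_bd (supp_ext Q v)]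
      rfl
    ext i j
    have h3 := congrFun (h1 (Pi.single j 1)) i
    rw [Matrix.mulVec_single_one] at h3
    exact h3
  have hex : ∀ v : I → ZMod p, ((MX Q).map (Int.castRingHom (ZMod p))).mulVec v = 0 →
      ∃ w, ((MX Q).map (Int.castRingHom (ZMod p))).mulVec w = v := by
    intro v hv
    have h1 : bd (ZMod p) (ext Q v) = 0 := by
      funext τ
      by_cases hτ : Ch Q τ
      · have := congrFun hv ⟨τ, hτ⟩
        rw [MX_mulVec] at this
        exact this
      · by_contra h2
        exact hτ (Supp.bd (supp_ext Q v) τ h2)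
    obtain ⟨b, hb, hbv⟩ := hQ (ext Q v) (supp_ext Q v) h1
    refine ⟨fun σ => b σ.1, ?_⟩
    funext τ
    rw [MX_mulVec, ext_of_supp Q b hb, hbv, T6.ext, dif_pos τ.2]
  have hbij : Function.Bijective (gI g hg) := Finite.injective_iff_bijective.mp (gI_inj g hg)
  have hGM : G * MX Q = MX Q * G := by
    ext τ σ
    obtain ⟨σ', rfl⟩ := hbij.2 σ
    rw [Matrix.mul_apply, Matrix.mul_apply]
    have h1 : ∑ ρ, G τ ρ * MX Q ρ (gI g hg σ') = MX Q (gI g hg τ) (gI g hg σ') := by
      rw [Finset.sum_eq_single (gI g hg τ)]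
      · simp [G]
      · intro b _ hb
        simp only [G, Matrix.of_apply]
        rw [if_neg (Ne.symm hb), zero_mul]
      · intro h
        exact absurd (Finset.mem_univ _) h
    have h2 : ∑ ρ, MX Q τ ρ * G ρ (gI g hg σ') = MX Q τ σ' := by
      rw [Finset.sum_eq_single σ']
      · simp [G]
      · intro b _ hb
        simp only [G, Matrix.of_apply]
        rw [if_neg (fun h => hb (gI_inj g hg h)), mul_zero]
      · intro h
        exact absurd (Finset.mem_univ _) h
    rw [h1, h2, MX_gI]
  have hDM : D * MX Q = -(MX Q * D) := by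
    ext τ σ
    simp only [D]
    rw [Matrix.diagonal_mul, Matrix.neg_apply, Matrix.mul_diagonal]
    by_cases h : MX Q τ σ = 0
    · rw [h]; simp
    · rw [MX_card τ σ h, pow_succ]
      ring
  have htr := lef_alg p (MX Q) G D hMM hex hGM hDM
  have h1 : (D * G).trace = ∑ τ : I, if τ.1.map g.toEquiv.toEmbedding = τ.1 then (-1 : ℤ) ^ τ.1.card else 0 := by
    rw [Matrix.trace]
    apply Finset.sum_congr rfl
    intro τ _
    simp only [D, Matrix.diag_apply]
    rw [Matrix.diagonal_mul]
    simp only [G, Matrix.of_apply]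
    have h2 : gI g hg τ = τ ↔ τ.1.map g.toEquiv.toEmbedding = τ.1 := by
      rw [gI, Subtype.ext_iff]
    by_cases h3 : τ.1.map g.toEquiv.toEmbedding = τ.1
    · rw [if_pos (h2.mpr h3), if_pos h3, mul_one]
    · rw [if_neg (fun h => h3 (h2.mp h)), if_neg h3, mul_zero]
  rw [h1] at htr
  have h2 : ∑ σ ∈ univ.filter (fun σ : Finset X => Ch Q σ),
      (if σ.map g.toEquiv.toEmbedding = σ then (-1 : ℤ) ^ σ.card else 0) =
      ∑ τ : I, if τ.1.map g.toEquiv.toEmbedding = τ.1 then (-1 : ℤ) ^ τ.1.card else 0 :=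
    Finset.sum_subtype (univ.filter (fun σ : Finset X => Ch Q σ)) (p := fun σ => Ch Q σ)
      (by simp) (fun σ => if σ.map g.toEquiv.toEmbedding = σ then (-1 : ℤ) ^ σ.card else 0)
  rw [← h2, ← Finset.sum_filter, Finset.filter_filter] at htr
  rw [← htr]
  apply Finset.sum_congr _ (fun _ _ => rfl)
  apply Finset.filter_congr
  intro σ _
  constructor
  · intro h
    have h3 : ∀ x ∈ σ, x ∈ Q ∧ g x = x := by
      intro x hx
      have := h.1 hx
      rw [fixIn, Finset.mem_filter] at this
      exact this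
    refine ⟨⟨fun x hx => (h3 x hx).1, h.2⟩, ?_⟩
    ext y
    rw [Finset.mem_map]
    constructor
    · rintro ⟨x, hx, rfl⟩
      have : g.toEquiv.toEmbedding x = x := (h3 x hx).2
      rw [this]
      exact hx
    · intro hy
      exact ⟨y, hy, (h3 y hy).2⟩
  · rintro ⟨h, h4⟩
    have h5 := chain_fixed' g σ h.2 (fun x hx => by
      have : g x ∈ σ.map g.toEquiv.toEmbedding := Finset.mem_map_of_mem _ hx
      rw [h4] at this
      exact this)
    refine ⟨?_, h.2⟩
    intro x hx
    rw [fixIn, Finset.mem_filter]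
    exact ⟨h.1 hx, h5 x hx⟩
end T6

end Pool.Agent.H98R2.Ev
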