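import Mathlib
import Pool.Agent.H23.L.Ev.Defs
import Pool.Agent.H23.L.Ev.T2
import Pool.Agent.H23.L.Ev.T5
import Pool.Agent.H23.L.Ev.T6
import Pool.Agent.H23.L.Ev.T7

set_option autoImplicit false

namespace Pool.Agent.H98R2.Ev

open Finset

universe u

section T8
variable {E : Type u} [DecidableEq E] [Fintype E]

theorem act_apply (π : Equiv.Perm E) (S : Finset E) : act π S = S.map π.toEmbedding := rfl

theorem map_mul_perm (π ρ : Equiv.Perm E) (S : Finset E) :
    S.map (π * ρ).toEmbedding = (S.map ρ.toEmbedding).map π.toEmbedding := by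
  rw [Finset.map_map]
  rfl

theorem map_one_perm (S : Finset E) : S.map (1 : Equiv.Perm E).toEmbedding = S :=
  Finset.map_refl

theorem act_iter (π : Equiv.Perm E) (n : ℕ) (S : Finset E) :
    (act π)^[n] S = S.map (π ^ n).toEmbedding := by
  induction n generalizing S with
  | zero =>
    rw [pow_zero, map_one_perm]
    rfl
  | succ n ih =>
    rw [Function.iterate_succ_apply, ih, act_apply, pow_succ, map_mul_perm]

theorem topo_criterion (D : Finset E → Prop) (hdown : ∀ S T, S ⊆ T → D T → D S)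
    (hne : NE univ D) (h0 : D ∅) {ι : Type} [Fintype ι] (p q : ℕ) [Fact p.Prime] [Fact q.Prime]
    (a : ι → Equiv.Perm E) (c h : Equiv.Perm E)
    (hcomm : ∀ i j, a i * a j = a j * a i) (hap : ∀ i, a i ^ p = 1) (hq : h ^ q = 1)
    (hDa : ∀ i S, D S → D (S.map (a i).toEmbedding))
    (hDc : ∀ S, D S → D (S.map c.toEmbedding))
    (hDh : ∀ S, D S → D (S.map h.toEmbedding))
    (hca : ∀ S : Finset E, (∀ i, S.map (a i).toEmbedding = S) →
      ∀ i, (S.map c.toEmbedding).map (a i).toEmbedding = S.map c.toEmbedding)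
    (hha : ∀ S : Finset E, (∀ i, S.map (a i).toEmbedding = S) → S.map c.toEmbedding = S →
      (∀ i, (S.map h.toEmbedding).map (a i).toEmbedding = S.map h.toEmbedding) ∧
      (S.map h.toEmbedding).map c.toEmbedding = S.map h.toEmbedding) :
    ∃ S : Finset E, S.Nonempty ∧ D S ∧ (∀ i, S.map (a i).toEmbedding = S) ∧
      S.map c.toEmbedding = S ∧ S.map h.toEmbedding = S := by
  classical
  have hmem : ∀ S : Finset E, S ∈ faces univ D ↔ S.Nonempty ∧ D S := by
    intro S
    simp [faces]
  have hA : Acyc (ZMod p) (faces univ D) := by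
    rcases ne_acyc (F := ZMod p) univ D (fun S T h _ hT => hdown S T h hT) hne with h | h
    · exact absurd h0 (h ∅ (empty_subset _))
    · exact h
  have hJ : ∀ J : Finset ι, Acyc (ZMod p)
      ((faces univ D).filter (fun S => ∀ i ∈ J, S.map (a i).toEmbedding = S)) := by
    intro J
    induction J using Finset.induction_on with
    | empty => simpa using hA
    | insert i J hi ih =>
      have h1 := smith p _ ih (act (a i)) (by
        intro S hS
        rw [Finset.mem_filter, hmem] at hS ⊢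
        obtain ⟨⟨hS1, hS2⟩, hS3⟩ := hS
        rw [act_apply]
        refine ⟨⟨(Finset.map_nonempty).2 hS1, hDa i S hS2⟩, ?_⟩
        intro j hj
        rw [← map_mul_perm, hcomm j i, map_mul_perm, hS3 j hj]) (by
        intro S
        rw [act_iter, hap i, map_one_perm])
      convert h1 using 1
      ext S
      constructor
      · intro hS
        rw [Finset.mem_filter] at hS
        obtain ⟨h1, h2⟩ := hS
        refine Finset.mem_filter.2 ⟨Finset.mem_filter.2
          ⟨h1, fun j hj => h2 j (Finset.mem_insert_of_mem hj)⟩, ?_⟩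
        exact h2 i (Finset.mem_insert_self i J)
      · intro hS
        obtain ⟨h1, h3⟩ := Finset.mem_filter.1 hS
        obtain ⟨h1, h2⟩ := Finset.mem_filter.1 h1
        refine Finset.mem_filter.2 ⟨h1, fun j hj => ?_⟩
        rcases Finset.mem_insert.1 hj with rfl | hj
        · exact h3
        · exact h2 j hj
  set QP := (faces univ D).filter (fun S => ∀ i ∈ (univ : Finset ι), S.map (a i).toEmbedding = S)
    with hQP
  have hmemP : ∀ S : Finset E, S ∈ QP ↔
      (S.Nonempty ∧ D S) ∧ ∀ i, S.map (a i).toEmbedding = S := by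
    intro S
    rw [hQP, Finset.mem_filter, hmem]
    simp
  have hL := lefschetz p QP (hJ univ) (act c) (by
    intro S hS
    rw [hmemP] at hS ⊢
    obtain ⟨⟨hS1, hS2⟩, hS3⟩ := hS
    rw [act_apply]
    exact ⟨⟨(Finset.map_nonempty).2 hS1, hDc S hS2⟩, hca S hS3⟩)
  by_contra hno
  have hmemC : ∀ S : Finset E, S ∈ fixIn QP (act c) ↔
      ((S.Nonempty ∧ D S) ∧ ∀ i, S.map (a i).toEmbedding = S) ∧ S.map c.toEmbedding = S := by
    intro S
    constructor
    · intro hS
      obtain ⟨h1, h2⟩ := Finset.mem_filter.1 hS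
      exact ⟨(hmemP S).1 h1, h2⟩
    · rintro ⟨h1, h2⟩
      exact Finset.mem_filter.2 ⟨(hmemP S).2 h1, h2⟩
  have hC := fixed_count q (fixIn QP (act c)) (act h) (by
    intro S hS
    rw [hmemC] at hS ⊢
    obtain ⟨⟨⟨hS1, hS2⟩, hS3⟩, hS4⟩ := hS
    rw [act_apply]
    obtain ⟨h1, h2⟩ := hha S hS3 hS4
    exact ⟨⟨⟨(Finset.map_nonempty).2 hS1, hDh S hS2⟩, h1⟩, h2⟩) (by
    intro S
    rw [act_iter, hq, map_one_perm]) (by
    intro S hS hfix
    rw [hmemC] at hS
    obtain ⟨⟨⟨hS1, hS2⟩, hS3⟩, hS4⟩ := hS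
    exact hno ⟨S, hS1, hS2, hS3, hS4, hfix⟩)
  rw [hL] at hC
  have h2 : (q : ℤ) ∣ 1 := by
    have := (dvd_neg).2 hC
    simpa using this
  have h3 : q = 1 := by
    have := Int.natCast_dvd_natCast.1 (by simpa using h2 : ((q : ℕ) : ℤ) ∣ ((1 : ℕ) : ℤ))
    exact Nat.dvd_one.1 this
  exact (Fact.out : q.Prime).one_lt.ne' h3
end T8

end Pool.Agent.H98R2.Ev
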