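import Mathlib
import Pool.Agent.H23.L.Ev.Defs

set_option autoImplicit false
set_option linter.unusedSectionVars false

/-! The group acting on the blocks (task E9 of helper98, proved by helper156). -/

namespace Pool.Agent.H98R2.Ev

open Finset

section T9
variable {k p r : ℕ} [NeZero k] [Fact p.Prime] [Fact r.Prime]

theorem tr_inl (i j : ZMod k) (u : ZMod p) :
    (tr i : Equiv.Perm (VV k p r)) (Sum.inl (j, u)) =
      Sum.inl (j, if j = i then u + 1 else u) := by
  simp only [tr, Equiv.sumCongr_apply, Sum.map_inl, Equiv.prodShear_apply, Equiv.refl_apply]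
  split_ifs <;> simp

theorem tr_inr (i : ZMod k) (x : ZMod r) :
    (tr i : Equiv.Perm (VV k p r)) (Sum.inr x) = Sum.inr x := by
  simp [tr]

theorem cyc_inl (g : (ZMod p)ˣ) (j : ZMod k) (u : ZMod p) :
    (cyc g : Equiv.Perm (VV k p r)) (Sum.inl (j, u)) = Sum.inl (j + 1, (g : ZMod p) * u) := by
  simp [cyc]

theorem cyc_inr (g : (ZMod p)ˣ) (x : ZMod r) :
    (cyc g : Equiv.Perm (VV k p r)) (Sum.inr x) = Sum.inr (x + 1) := by
  simp [cyc]

theorem mulr_inl (w : (ZMod r)ˣ) (y : ZMod k × ZMod p) :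
    (mulr w : Equiv.Perm (VV k p r)) (Sum.inl y) = Sum.inl y := by
  simp [mulr]

theorem mulr_inr (w : (ZMod r)ˣ) (x : ZMod r) :
    (mulr w : Equiv.Perm (VV k p r)) (Sum.inr x) = Sum.inr ((w : ZMod r) * x) := by
  simp [mulr]

theorem tr_pow_inl (i j : ZMod k) (u : ZMod p) (m : ℕ) :
    ((tr i : Equiv.Perm (VV k p r)) ^ m) (Sum.inl (j, u)) =
      Sum.inl (j, if j = i then u + m else u) := by
  induction m with
  | zero => simp
  | succ m ih =>
    rw [pow_succ', Equiv.Perm.mul_apply, ih, tr_inl]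
    split_ifs
    · push_cast
      rw [add_assoc]
    · rfl

theorem tr_pow_inr (i : ZMod k) (x : ZMod r) (m : ℕ) :
    ((tr i : Equiv.Perm (VV k p r)) ^ m) (Sum.inr x) = Sum.inr x := by
  induction m with
  | zero => simp
  | succ m ih => rw [pow_succ', Equiv.Perm.mul_apply, ih, tr_inr]

theorem cyc_pow_inl (g : (ZMod p)ˣ) (j : ZMod k) (u : ZMod p) (m : ℕ) :
    ((cyc g : Equiv.Perm (VV k p r)) ^ m) (Sum.inl (j, u)) =
      Sum.inl (j + m, (g : ZMod p) ^ m * u) := by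
  induction m with
  | zero => simp
  | succ m ih =>
    rw [pow_succ', Equiv.Perm.mul_apply, ih, cyc_inl]
    push_cast
    rw [add_assoc, pow_succ', mul_assoc]

theorem cyc_pow_inr (g : (ZMod p)ˣ) (x : ZMod r) (m : ℕ) :
    ((cyc g : Equiv.Perm (VV k p r)) ^ m) (Sum.inr x) = Sum.inr (x + m) := by
  induction m with
  | zero => simp
  | succ m ih =>
    rw [pow_succ', Equiv.Perm.mul_apply, ih, cyc_inr]
    push_cast
    rw [add_assoc]

theorem mulr_pow_inl (w : (ZMod r)ˣ) (y : ZMod k × ZMod p) (m : ℕ) :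
    ((mulr w : Equiv.Perm (VV k p r)) ^ m) (Sum.inl y) = Sum.inl y := by
  induction m with
  | zero => simp
  | succ m ih => rw [pow_succ', Equiv.Perm.mul_apply, ih, mulr_inl]

theorem mulr_pow_inr (w : (ZMod r)ˣ) (x : ZMod r) (m : ℕ) :
    ((mulr w : Equiv.Perm (VV k p r)) ^ m) (Sum.inr x) = Sum.inr ((w : ZMod r) ^ m * x) := by
  induction m with
  | zero => simp
  | succ m ih =>
    rw [pow_succ', Equiv.Perm.mul_apply, ih, mulr_inr, pow_succ', mul_assoc]

theorem tr_comm (i j : ZMod k) : (tr i : Equiv.Perm (VV k p r)) * tr j = tr j * tr i := by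
  ext x
  rcases x with ⟨a, u⟩ | x
  · rw [Equiv.Perm.mul_apply, Equiv.Perm.mul_apply, tr_inl, tr_inl, tr_inl, tr_inl]
    split_ifs <;> rfl
  · rw [Equiv.Perm.mul_apply, Equiv.Perm.mul_apply, tr_inr, tr_inr, tr_inr]

theorem tr_pow (i : ZMod k) : (tr i : Equiv.Perm (VV k p r)) ^ p = 1 := by
  ext x
  rcases x with ⟨a, u⟩ | x
  · rw [tr_pow_inl, Equiv.Perm.one_apply]
    simp
  · rw [tr_pow_inr, Equiv.Perm.one_apply]

theorem cyc_tr (g : (ZMod p)ˣ) (i : ZMod k) :
    (cyc g : Equiv.Perm (VV k p r)) * tr i = (tr (i + 1)) ^ ((g : ZMod p).val) * cyc g := by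
  ext x
  rcases x with ⟨a, u⟩ | x
  · rw [Equiv.Perm.mul_apply, Equiv.Perm.mul_apply, tr_inl, cyc_inl, cyc_inl, tr_pow_inl]
    rw [ZMod.natCast_val, ZMod.cast_id', id]
    by_cases h : a = i
    · subst h
      simp [mul_add]
    · have h' : ¬ (a + 1 = i + 1) := fun h2 => h (add_right_cancel h2)
      rw [if_neg h, if_neg h']
  · rw [Equiv.Perm.mul_apply, Equiv.Perm.mul_apply, tr_inr, cyc_inr, tr_pow_inr]

theorem mulr_tr (w : (ZMod r)ˣ) (i : ZMod k) :
    (mulr w : Equiv.Perm (VV k p r)) * tr i = tr i * mulr w := by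
  ext x
  rcases x with ⟨a, u⟩ | x
  · rw [Equiv.Perm.mul_apply, Equiv.Perm.mul_apply, tr_inl, mulr_inl, mulr_inl, tr_inl]
  · rw [Equiv.Perm.mul_apply, Equiv.Perm.mul_apply, tr_inr, mulr_inr, tr_inr]

theorem mulr_pow (w : (ZMod r)ˣ) (q : ℕ) (hw : w ^ q = 1) :
    (mulr w : Equiv.Perm (VV k p r)) ^ q = 1 := by
  ext x
  rcases x with ⟨a, u⟩ | x
  · rw [mulr_pow_inl, Equiv.Perm.one_apply]
  · rw [mulr_pow_inr, Equiv.Perm.one_apply]
    have h : ((w : ZMod r)) ^ q = 1 := by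
      rw [← Units.val_pow_eq_pow_val, hw, Units.val_one]
    rw [h, one_mul]

/-- conjugation by `mulr w` maps `cyc g` to a power of `cyc g` -/
theorem mulr_cyc (g : (ZMod p)ˣ) (w : (ZMod r)ˣ) (hrp : p < r) (hrk : k < r) :
    ∃ e : ℕ, (mulr w : Equiv.Perm (VV k p r)) * cyc g = (cyc g) ^ e * mulr w := by
  have hp : p.Prime := Fact.out
  have hr : r.Prime := Fact.out
  have hp2 := hp.two_le
  have hk0 : 0 < k := Nat.pos_of_ne_zero (NeZero.ne k)
  have hcop : Nat.Coprime (k * (p - 1)) r := by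
    apply Nat.Coprime.mul_left
    · rw [Nat.coprime_comm]
      exact (Nat.Prime.coprime_iff_not_dvd hr).2 (fun h => by
        have := Nat.le_of_dvd hk0 h
        omega)
    · rw [Nat.coprime_comm]
      exact (Nat.Prime.coprime_iff_not_dvd hr).2 (fun h => by
        have := Nat.le_of_dvd (by omega) h
        omega)
  obtain ⟨e, he1, he2⟩ := Nat.chineseRemainder hcop 1 (w : ZMod r).val
  have hek : e ≡ 1 [MOD k] := he1.of_dvd (Dvd.intro _ rfl)
  have hep : e ≡ 1 [MOD (p - 1)] := he1.of_dvd (Dvd.intro_left _ rfl)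
  have hek' : (e : ZMod k) = 1 := by
    have := (ZMod.natCast_eq_natCast_iff e 1 k).2 hek
    simpa using this
  have her' : (e : ZMod r) = (w : ZMod r) := by
    have := (ZMod.natCast_eq_natCast_iff e (w : ZMod r).val r).2 he2
    rw [this, ZMod.natCast_val, ZMod.cast_id', id]
  have hge : (g : ZMod p) ^ e = g := by
    have h1 : g ^ (p - 1) = 1 := ZMod.units_pow_card_sub_one_eq_one p g
    have h2 : g ^ e = g ^ 1 := by
      apply (pow_eq_pow_iff_modEq).2
      exact hep.of_dvd (orderOf_dvd_of_pow_eq_one h1)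
    rw [← Units.val_pow_eq_pow_val, h2, pow_one]
  refine ⟨e, ?_⟩
  ext x
  rcases x with ⟨a, u⟩ | x
  · rw [Equiv.Perm.mul_apply, Equiv.Perm.mul_apply, cyc_inl, mulr_inl, mulr_inl, cyc_pow_inl,
      hek', hge]
  · rw [Equiv.Perm.mul_apply, Equiv.Perm.mul_apply, cyc_inr, mulr_inr, mulr_inr, cyc_pow_inr,
      her', mul_add, mul_one]
end T9

end Pool.Agent.H98R2.Ev
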