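import Mathlib
import Pool.Agent.H23.L.Ev.Defs
import Pool.Agent.H23.L.Ev.T8
import Pool.Agent.H23.L.Ev.T9
import Pool.Agent.H23.L.Ev.T10
import Pool.Agent.H23.L.Ev.T11

set_option autoImplicit false

/-! T14: the types of the orbits of the block group on pairs. -/

namespace Pool.Agent.H98R2.Ev

open Finset

section T14
variable {k p r : ℕ} [NeZero k] [Fact p.Prime] [Fact r.Prime]

/-- the relation `R` contains one of the four types of orbits -/
def HasType (g : (ZMod p)ˣ) (w : (ZMod r)ˣ) (R : VV k p r → VV k p r → Prop) : Prop :=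
  (∃ δ : ZMod r, δ ≠ 0 ∧ ∀ (x : ZMod r) (t : ℕ),
    R (Sum.inr x) (Sum.inr (x + ((w ^ t : (ZMod r)ˣ) : ZMod r) * δ))) ∨
  (∀ (z : ZMod k × ZMod p) (x : ZMod r), R (Sum.inl z) (Sum.inr x)) ∨
  (∃ j : ZMod k, j ≠ 0 ∧ ∀ (i : ZMod k) (u v : ZMod p), R (Sum.inl (i, u)) (Sum.inl (i + j, v))) ∨
  (∃ δ : ZMod k → ZMod p, (∀ i, δ i ≠ 0) ∧ ∀ (i : ZMod k) (u : ZMod p) (t : ℕ),
    R (Sum.inl (i, u)) (Sum.inl (i, u + (((g ^ k) ^ t : (ZMod p)ˣ) : ZMod p) * δ i)))

theorem orbit_types (g : (ZMod p)ˣ) (hg : orderOf g = p - 1) (w : (ZMod r)ˣ)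
    (S : Finset (EV (VV k p r))) (hS : S.Nonempty)
    (htr : ∀ i, S.map (ep (tr i)).toEmbedding = S) (hcyc : S.map (ep (cyc g)).toEmbedding = S)
    (hmul : S.map (ep (mulr w)).toEmbedding = S) (hrp : p < r) (hrk : k < r) :
    HasType g w (RR S) := by
  have Hcyc : ∀ a b : VV k p r, RR S (cyc g a) (cyc g b) ↔ RR S a b := RR_perm S _ hcyc
  have Htr : ∀ (i : ZMod k) (a b : VV k p r), RR S (tr i a) (tr i b) ↔ RR S a b :=
    fun i => RR_perm S _ (htr i)
  have Hmul : ∀ a b : VV k p r, RR S (mulr w a) (mulr w b) ↔ RR S a b := RR_perm S _ hmul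
  have HaddR := inv_addR g hg hrp hrk (RR S) Hcyc
  have HmovP := inv_movP g hg hrp hrk (RR S) Hcyc
  have HaddP : ∀ i z (a b : VV k p r), RR S (addP i z a) (addP i z b) ↔ RR S a b :=
    fun i => inv_addP (RR S) i (Htr i)
  have HmulP : ∀ (m : ℕ) (a b : VV k p r),
      RR S (((mulr w : Equiv.Perm (VV k p r)) ^ m) a) (((mulr w : Equiv.Perm (VV k p r)) ^ m) b) ↔
        RR S a b := fun m => inv_pow (RR S) _ Hmul m
  -- mixed case
  have mixed : ∀ (i : ZMod k) (u : ZMod p) (x : ZMod r), RR S (Sum.inl (i, u)) (Sum.inr x) →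
      HasType g w (RR S) := by
    intro i u x hR
    refine Or.inr (Or.inl ?_)
    rintro ⟨i', u'⟩ x'
    have e1 := (HmovP (i' - i).val _ _).2 hR
    simp only [movP, ZMod.natCast_zmod_val, add_sub_cancel] at e1
    have e2 := (HaddP i' (u' - ((g ^ (i' - i).val : (ZMod p)ˣ) : ZMod p) * u) _ _).2 e1
    simp only [addP, if_true, add_sub_cancel] at e2
    have e3 := (HaddR (x' - x) _ _).2 e2
    simpa only [addR, add_sub_cancel] using e3
  obtain ⟨⟨e, he⟩, heS⟩ := hS
  revert he heS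
  refine Sym2.ind (fun a b => ?_) e
  intro he heS
  have hR : RR S a b := ⟨he, heS⟩
  have hab := RR_ne S hR
  rcases a with ⟨i, u⟩ | x
  · rcases b with ⟨j, v⟩ | y
    · by_cases hij : i = j
      · -- same block
        subst hij
        have huv : v - u ≠ 0 := by
          intro h
          apply hab
          rw [sub_eq_zero] at h
          rw [h]
        refine Or.inr (Or.inr (Or.inr
          ⟨fun i' => ((g ^ (i' - i).val : (ZMod p)ˣ) : ZMod p) * (v - u),
            fun i' => mul_ne_zero (Units.ne_zero _) huv, ?_⟩))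
        intro i' u' t
        have e1 := (HmovP (k * t + (i' - i).val) _ _).2 hR
        simp only [movP, Nat.cast_add, Nat.cast_mul, ZMod.natCast_self, zero_mul, zero_add,
          ZMod.natCast_zmod_val, add_sub_cancel] at e1
        have e2 := (HaddP i' (u' - ((g ^ (k * t + (i' - i).val) : (ZMod p)ˣ) : ZMod p) * u) _ _).2 e1
        simp only [addP, if_true, add_sub_cancel] at e2
        have e3 : ((g ^ (k * t + (i' - i).val) : (ZMod p)ˣ) : ZMod p) * v +
            (u' - ((g ^ (k * t + (i' - i).val) : (ZMod p)ˣ) : ZMod p) * u) =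
            u' + (((g ^ k) ^ t : (ZMod p)ˣ) : ZMod p) *
              (((g ^ (i' - i).val : (ZMod p)ˣ) : ZMod p) * (v - u)) := by
          rw [pow_add, pow_mul]
          push_cast
          ring
        rw [e3] at e2
        exact e2
      · -- different blocks
        refine Or.inr (Or.inr (Or.inl ⟨j - i, sub_ne_zero.2 (fun h => hij h.symm), ?_⟩))
        intro i' u' v'
        have e1 := (HmovP (i' - i).val _ _).2 hR
        simp only [movP, ZMod.natCast_zmod_val, add_sub_cancel] at e1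
        have hj : j + (i' - i) = i' + (j - i) := by ring
        rw [hj] at e1
        have hne : i' + (j - i) ≠ i' := by
          intro h
          have : j - i = 0 := by simpa using h
          exact hij (sub_eq_zero.1 this).symm
        have e2 := (HaddP i' (u' - ((g ^ (i' - i).val : (ZMod p)ˣ) : ZMod p) * u) _ _).2 e1
        simp only [addP, if_true, add_sub_cancel, if_neg hne] at e2
        have e3 := (HaddP (i' + (j - i))
          (v' - ((g ^ (i' - i).val : (ZMod p)ˣ) : ZMod p) * v) _ _).2 e2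
        simp only [addP, if_true, add_sub_cancel, if_neg hne.symm] at e3
        exact e3
    · exact mixed i u y hR
  · rcases b with ⟨j, v⟩ | y
    · exact mixed j v x (RR_symm S hR)
    · have hxy : y - x ≠ 0 := by
        intro h
        apply hab
        rw [sub_eq_zero] at h
        rw [h]
      refine Or.inl ⟨y - x, hxy, ?_⟩
      intro x' t
      have e1 := (HmulP t _ _).2 hR
      rw [t10_mulr_pow_inr, t10_mulr_pow_inr] at e1
      have e2 := (HaddR (x' - ((w ^ t : (ZMod r)ˣ) : ZMod r) * x) _ _).2 e1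
      simp only [addR, add_sub_cancel] at e2
      have e3 : ((w ^ t : (ZMod r)ˣ) : ZMod r) * y +
          (x' - ((w ^ t : (ZMod r)ˣ) : ZMod r) * x) =
          x' + ((w ^ t : (ZMod r)ˣ) : ZMod r) * (y - x) := by ring
      rw [e3] at e2
      exact e2

/-- A non-evasive complex contains a large graph with one of the four types of orbits. -/
theorem blocks_types (q : ℕ) [Fact q.Prime] (hqr : q ∣ r - 1) (hrp : p < r) (hrk : k < r)
    (D : Finset (EV (VV k p r)) → Prop) (hdown : ∀ S T, S ⊆ T → D T → D S) (h0 : D ∅)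
    (hinv : ∀ (π : Equiv.Perm (VV k p r)) S, D S → D (S.map (ep π).toEmbedding))
    (hNE : NE univ D) :
    ∃ (g : (ZMod p)ˣ) (w : (ZMod r)ˣ) (S : Finset (EV (VV k p r))), orderOf g = p - 1 ∧
      orderOf w = q ∧ D S ∧ HasType g w (RR S) ∧
      ∀ N : ℕ, N ≤ r * q → N ≤ k * p * r → N ≤ k * p * p → N ≤ p * Nat.lcm k (p - 1) →
        N ≤ 2 * S.card := by
  classical
  obtain ⟨g, hg⟩ : ∃ g : (ZMod p)ˣ, orderOf g = p - 1 := by
    obtain ⟨g, hg⟩ := IsCyclic.exists_generator (α := (ZMod p)ˣ)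
    refine ⟨g, ?_⟩
    rw [orderOf_eq_card_of_forall_mem_zpowers hg, Nat.card_eq_fintype_card,
      ZMod.card_units_eq_totient, Nat.totient_prime Fact.out]
  obtain ⟨w, hw⟩ : ∃ w : (ZMod r)ˣ, orderOf w = q := by
    apply exists_prime_orderOf_dvd_card q
    rw [ZMod.card_units_eq_totient, Nat.totient_prime Fact.out]
    exact hqr
  have hinvr : ∀ T : Finset (EV (VV k p r)), ∀ i : ZMod k,
      T.map (ep (tr i ^ ((g : ZMod p).val))).toEmbedding = T →
      T.map (ep (tr i)).toEmbedding = T := by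
    intro T i hT
    have h5 := mp_pow_fix (tr i ^ ((g : ZMod p).val)) T hT (((g⁻¹ : (ZMod p)ˣ) : ZMod p).val)
    have h6 : (tr i ^ ((g : ZMod p).val)) ^ (((g⁻¹ : (ZMod p)ˣ) : ZMod p).val)
        = (tr i : Equiv.Perm (VV k p r)) := by
      rw [← pow_mul]
      have h7 : (g : ZMod p).val * ((g⁻¹ : (ZMod p)ˣ) : ZMod p).val ≡ 1 [MOD p] := by
        rw [← ZMod.natCast_eq_natCast_iff]
        rw [Nat.cast_mul, ZMod.natCast_zmod_val, ZMod.natCast_zmod_val, Units.mul_inv,
          Nat.cast_one]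
      have h8 := pow_eq_pow_of_modEq h7 (tr_pow (r := r) i)
      rw [h8, pow_one]
    rw [h6] at h5
    exact h5
  obtain ⟨S, hS1, hS2, hS3, hS4, hS5⟩ := topo_criterion D hdown hNE h0 p q
    (fun i : ZMod k => ep (tr i)) (ep (cyc g)) (ep (mulr w))
    (fun i j => by rw [← ep_mul, ← ep_mul, tr_comm])
    (fun i => by rw [← ep_pow, tr_pow, ep_one])
    (by rw [← ep_pow, mulr_pow w q (by rw [← hw]; exact pow_orderOf_eq_one w), ep_one])
    (fun i S hS => hinv _ S hS) (fun S hS => hinv _ S hS) (fun S hS => hinv _ S hS)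
    (by
      intro S hS i
      apply hinvr
      have h5 := cyc_tr (k := k) (r := r) g (i - 1)
      rw [sub_add_cancel] at h5
      rw [mp_mul, ← h5, ← mp_mul, hS (i - 1)])
    (by
      intro S hS hc
      refine ⟨fun i => ?_, ?_⟩
      · rw [mp_mul, ← mulr_tr, ← mp_mul, hS i]
      · obtain ⟨e, he⟩ := mulr_cyc (k := k) g w⁻¹ hrp hrk
        have h5 : (cyc g : Equiv.Perm (VV k p r)) * mulr w = mulr w * (cyc g) ^ e := by
          have h6 : (mulr w : Equiv.Perm (VV k p r)) * (mulr w⁻¹ * cyc g) * mulr w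
              = mulr w * (cyc g ^ e * mulr w⁻¹) * mulr w := by rw [he]
          rw [← mul_assoc, mulr_mul_inv, one_mul] at h6
          rw [h6, mul_assoc, mul_assoc, mulr_inv_mul, mul_one]
        rw [mp_mul, h5, ← mp_mul, mp_pow_fix _ _ hc])
  refine ⟨g, w, S, hg, hw, hS2, orbit_types g hg w S hS1 hS3 hS4 hS5 hrp hrk, ?_⟩
  intro N h1 h2 h3 h4
  exact orbit_large g hg w q hw S hS1 hS3 hS4 hS5 hrp hrk N h1 h2 h3 h4
end T14

end Pool.Agent.H98R2.Ev
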