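import Mathlib
import Pool.Agent.H23.L.Ev.Defs
import Pool.Agent.H23.L.Ev.T3
import Pool.Agent.H23.L.Ev.T14

set_option autoImplicit false

/-! T15: from the block vertex set to `Fin n`. -/

namespace Pool.Agent.H98R2.Ev

open Finset

universe u

theorem ne_map15 {E E' : Type u} [DecidableEq E] [DecidableEq E'] (f : E ≃ E') (A : Finset E)
    (D : Finset E → Prop) (h : NE A D) :
    NE (A.map f.toEmbedding) (fun S => D (S.map f.symm.toEmbedding)) := by
  have hsub : ∀ (B : Finset E) (S : Finset E'), S ⊆ B.map f.toEmbedding →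
      S.map f.symm.toEmbedding ⊆ B := by
    intro B S hS x hx
    obtain ⟨y, hy, rfl⟩ := mem_map.1 hx
    obtain ⟨z, hz, rfl⟩ := mem_map.1 (hS hy)
    simpa using hz
  induction h with
  | const A D hA h =>
    refine NE.const _ _ (hA.map) ?_
    rcases h with h | h
    · exact Or.inl fun S hS => h _ (hsub A S hS)
    · exact Or.inr fun S hS => h _ (hsub A S hS)
  | node A D x hx h0 h1 ih0 ih1 =>
    have e1 : (A.map f.toEmbedding).erase (f x) = (A.erase x).map f.toEmbedding := by
      rw [Finset.map_erase]; rfl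
    refine NE.node _ _ (f x) (mem_map_of_mem _ hx) ?_ ?_
    · rw [e1]; exact ih0
    · rw [e1]
      have e2 : (fun S : Finset E' => D ((insert (f x) S).map f.symm.toEmbedding)) =
          (fun S : Finset E' => D (insert x (S.map f.symm.toEmbedding))) := by
        funext S
        rw [Finset.map_insert]
        simp
      rw [e2]
      exact ih1

theorem toG_adj15 {V : Type} [DecidableEq V] (S : Finset (EV V)) (a b : V) :
    (toG S).Adj a b ↔ RR S a b := by
  rw [← SimpleGraph.mem_edgeSet, t3_mem_toG]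
  rfl

/-- the bijection on pairs induced by a bijection on vertices -/
def ev15 {V W : Type} [DecidableEq V] [DecidableEq W] (e : V ≃ W) : EV V ≃ EV W where
  toFun x := ⟨Sym2.map e x.1, by
    intro h
    apply x.2
    revert h
    refine Sym2.ind (fun a b => ?_) x.1
    simp [Sym2.map_mk]⟩
  invFun x := ⟨Sym2.map e.symm x.1, by
    intro h
    apply x.2
    revert h
    refine Sym2.ind (fun a b => ?_) x.1
    simp [Sym2.map_mk]⟩
  left_inv x := by
    apply Subtype.ext
    simp [Sym2.map_map]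
  right_inv x := by
    apply Subtype.ext
    simp [Sym2.map_map]

theorem toG_map15 {V W : Type} [DecidableEq V] [DecidableEq W] (e : V ≃ W) (S : Finset (EV V)) :
    toG (S.map (ev15 e).toEmbedding) = (toG S).map e.toEmbedding := by
  ext a b
  rw [toG_adj15, SimpleGraph.map_adj]
  constructor
  · rintro ⟨h, h1⟩
    obtain ⟨⟨x, hx⟩, hxS, hxe⟩ := mem_map.1 h1
    have hxe' : Sym2.map e x = s(a, b) := congrArg Subtype.val hxe
    induction x using Sym2.ind with
    | _ u v =>
      rw [Sym2.map_mk] at hxe'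
      rcases Sym2.eq_iff.1 hxe' with ⟨h2, h3⟩ | ⟨h2, h3⟩
      · exact ⟨u, v, (toG_adj15 S u v).2 ⟨hx, hxS⟩, h2, h3⟩
      · exact ⟨v, u, (toG_adj15 S v u).2 (RR_symm S ⟨hx, hxS⟩), h3, h2⟩
  · rintro ⟨u, v, huv, rfl, rfl⟩
    obtain ⟨hx, hxS⟩ := (toG_adj15 S u v).1 huv
    have hne : u ≠ v := RR_ne S ⟨hx, hxS⟩
    refine ⟨by simpa using hne, ?_⟩
    exact mem_map_of_mem (ev15 e).toEmbedding hxS

theorem toG_mono15 {V : Type} [DecidableEq V] {S T : Finset (EV V)} (h : S ⊆ T) :
    toG S ≤ toG T := by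
  intro a b hab
  rw [toG_adj15] at hab ⊢
  obtain ⟨h1, h2⟩ := hab
  exact ⟨h1, h h2⟩

theorem map_map15 {V W Z : Type} (e : V ≃ W) (f : W ≃ Z) (G : SimpleGraph V) :
    (G.map e.toEmbedding).map f.toEmbedding = G.map (e.trans f).toEmbedding := by
  rw [SimpleGraph.map_map]
  rfl

theorem evasive_types (n k p r q : ℕ) [NeZero k] [Fact p.Prime] [Fact r.Prime] [Fact q.Prime]
    (hn : n = k * p + r) (hqr : q ∣ r - 1) (hrp : p < r) (hrk : k < r)
    (P : SimpleGraph (Fin n) → Prop) (hmono : ∀ G H : SimpleGraph (Fin n), G ≤ H → P G → P H)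
    (hiso : ∀ (σ : Fin n ≃ Fin n) (G : SimpleGraph (Fin n)), P G → P (G.map σ.toEmbedding))
    (hne : ∃ G : SimpleGraph (Fin n), ¬ P G)
    (htype : ∀ (G : SimpleGraph (Fin n)) (f : VV k p r → Fin n) (g : (ZMod p)ˣ) (w : (ZMod r)ˣ),
      Function.Injective f → orderOf g = p - 1 → orderOf w = q → ¬ P G →
      ¬ HasType g w (fun a b => G.Adj (f a) (f b)))
    (s : Finset (Sym2 (Fin n)) → SimpleGraph (Fin n) → Sym2 (Fin n))
    (hs : ∀ (Q : Finset (Sym2 (Fin n))) (G H : SimpleGraph (Fin n)),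
      (∀ e ∈ Q, (e ∈ G.edgeSet ↔ e ∈ H.edgeSet)) → s Q G = s Q H) :
    ∃ G H : SimpleGraph (Fin n),
      (∀ e ∈ (fun Q : Finset (Sym2 (Fin n)) => insert (s Q G) Q)^[n.choose 2 - 1]
        (∅ : Finset (Sym2 (Fin n))), (e ∈ G.edgeSet ↔ e ∈ H.edgeSet)) ∧ P G ∧ ¬ P H := by
  classical
  by_contra hbad
  have hk : 0 < k := Nat.pos_of_ne_zero (NeZero.ne k)
  have hp : p.Prime := Fact.out
  have hr : r.Prime := Fact.out
  have hn2 : 2 ≤ n := by have := hr.two_le; omega
  have hNE := ne_of_strategy n hn2 P s hs hbad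
  have hcard : Fintype.card (Fin n) = Fintype.card (VV k p r) := by
    rw [Fintype.card_fin, Fintype.card_sum, Fintype.card_prod, ZMod.card, ZMod.card, ZMod.card, hn]
  let e : Fin n ≃ VV k p r := Fintype.equivOfCardEq hcard
  have hNE2 := ne_map15 (ev15 e) _ _ hNE
  rw [Finset.map_univ_equiv] at hNE2
  have hsymm : ∀ S : Finset (EV (VV k p r)), toG (S.map (ev15 e).symm.toEmbedding) =
      (toG S).map e.symm.toEmbedding := by
    intro S
    exact toG_map15 e.symm S
  set D : Finset (EV (VV k p r)) → Prop := fun S => ¬ P ((toG S).map e.symm.toEmbedding) with hD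
  have hNE3 : NE univ D := by
    have : D = (fun S => ¬ P (toG (S.map (ev15 e).symm.toEmbedding))) := by
      funext S
      rw [hD, hsymm S]
    rw [this]
    exact hNE2
  have hdown : ∀ S T, S ⊆ T → D T → D S := by
    intro S T hST hT hS
    exact hT (hmono _ _ (SimpleGraph.map_monotone _ (toG_mono15 hST)) hS)
  have h0 : D ∅ := by
    intro h
    obtain ⟨G, hG⟩ := hne
    apply hG
    refine hmono _ _ ?_ h
    intro a b hab
    rw [SimpleGraph.map_adj] at hab
    obtain ⟨u, v, huv, -, -⟩ := hab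
    rw [toG_adj15] at huv
    obtain ⟨_, h2⟩ := huv
    simp at h2
  have hinv : ∀ (π : Equiv.Perm (VV k p r)) S, D S → D (S.map (ep π).toEmbedding) := by
    intro π S hS hP
    apply hS
    have e1 : toG (S.map (ep π).toEmbedding) = (toG S).map π.toEmbedding := toG_map15 π S
    rw [e1, map_map15] at hP
    have h1 := hiso ((e.trans π.symm).trans e.symm) _ hP
    rw [map_map15] at h1
    convert h1 using 3
    ext x
    simp
  obtain ⟨g, w, S, hg, hw, hDS, hT, -⟩ := blocks_types q hqr hrp hrk D hdown h0 hinv hNE3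
  refine htype ((toG S).map e.symm.toEmbedding) e.symm g w e.symm.injective hg hw hDS ?_
  have e3 : (fun a b => ((toG S).map e.symm.toEmbedding).Adj (e.symm a) (e.symm b)) = RR S := by
    funext a b
    rw [eq_iff_iff, ← toG_adj15]
    exact SimpleGraph.map_adj_apply
  rw [e3]
  exact hT

end Pool.Agent.H98R2.Ev
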